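import Mathlib

set_option autoImplicit false

/-!
# Facts about Chebyshev polynomials
-/

namespace Pool.Agent.K4H44.MXC

open Polynomial

/-- The Chebyshev polynomial of the first kind of degree `k + 1`. -/
noncomputable abbrev TT (k : ℕ) : ℂ[X] := Chebyshev.T ℂ ((k + 1 : ℕ) : ℤ)

/-- The Chebyshev polynomial of the second kind of degree `k`. -/
noncomputable abbrev UU (k : ℕ) : ℂ[X] := Chebyshev.U ℂ (k : ℤ)

lemma pell (k : ℕ) : TT k ^ 2 + (1 - X ^ 2) * UU k ^ 2 = 1 := by
  induction k with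
  | zero =>
    simp only [TT, UU, Nat.cast_zero, Nat.cast_one, zero_add, Chebyshev.T_one, Chebyshev.U_zero]
    ring
  | succ k ih =>
    have h1 : TT (k + 1) = X * TT k - (1 - X ^ 2) * UU k := by
      have := Chebyshev.T_eq_X_mul_T_sub_pol_U ℂ (k : ℤ)
      simp only [TT, UU]
      push_cast
      rw [show (k : ℤ) + 1 + 1 = k + 2 by ring]
      exact this
    have h2 : UU (k + 1) = X * UU k + TT k := by
      have := Chebyshev.U_eq_X_mul_U_add_T ℂ (k : ℤ)
      simp only [TT, UU]
      push_cast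
      exact this
    rw [h1, h2]
    linear_combination ih

lemma pell_eval (k : ℕ) (b : ℂ) : (TT k).eval b ^ 2 + (1 - b ^ 2) * (UU k).eval b ^ 2 = 1 := by
  have := congrArg (eval b) (pell k)
  simpa using this

lemma deriv_TT (k : ℕ) : derivative (TT k) = (k + 1 : ℂ[X]) * UU k := by
  have := Chebyshev.T_derivative_eq_U (R := ℂ) ((k + 1 : ℕ) : ℤ)
  rw [this]
  push_cast
  simp

lemma deriv_TT_eval (k : ℕ) (b : ℂ) : (derivative (TT k)).eval b = (k + 1) * (UU k).eval b := by
  rw [deriv_TT]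
  simp

lemma TT_one (k : ℕ) : (TT k).eval 1 = 1 := Chebyshev.T_eval_one ℂ _

lemma UU_one (k : ℕ) : (UU k).eval 1 = k + 1 := by
  have := Chebyshev.U_eval_one ℂ (k : ℤ)
  simp

lemma deriv_TT_one (k : ℕ) : (derivative (TT k)).eval 1 = (k + 1) ^ 2 := by
  rw [deriv_TT_eval, UU_one]
  ring

lemma deriv2_ne (k : ℕ) {b : ℂ} (hb : (UU k).eval b = 0) :
    (derivative (derivative (TT k))).eval b ≠ 0 := by
  intro h
  have h1 := congrArg (eval b)
    (Chebyshev.one_sub_X_sq_mul_derivative_derivative_T_eq_poly_in_T (R := ℂ) ((k + 1 : ℕ) : ℤ))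
  have h2 := pell_eval k b
  rw [hb] at h2
  simp only [Function.iterate_succ, Function.iterate_zero, Function.comp, id, eval_mul, eval_sub,
    eval_one, eval_pow, eval_X, h, mul_zero, deriv_TT_eval, hb, zero_sub] at h1
  have h3 : (TT k).eval b ≠ 0 := by
    intro h3
    rw [h3] at h2
    norm_num at h2
  have h4 : ((k : ℂ) + 1) ≠ 0 := by
    exact_mod_cast Nat.succ_ne_zero k
  apply h3
  have h5 : ((k : ℂ) + 1) ^ 2 * (TT k).eval b = 0 := by
    have h7 : eval b (((k + 1 : ℕ) : ℤ) : ℂ[X]) = (k : ℂ) + 1 := by simp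
    rw [h7] at h1
    exact neg_eq_zero.1 h1.symm
  exact (mul_eq_zero.1 h5).resolve_left (pow_ne_zero 2 h4)

lemma UU_ne_zero (k : ℕ) : UU k ≠ 0 := by
  intro h
  have := Chebyshev.degree_U_natCast ℂ k
  rw [show Chebyshev.U ℂ (k : ℤ) = UU k from rfl, h] at this
  simp at this

lemma card_roots (k : ℕ) : (UU k).roots.toFinset.card = k := by
  have h1 : (UU k).roots.Nodup := by
    rw [nodup_roots_iff_of_splits (UU_ne_zero k) (IsAlgClosed.splits _)]
    rw [separable_def, isCoprime_iff_aeval_ne_zero_of_isAlgClosed ℂ ℂ]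
    intro b
    by_cases hb : (UU k).eval b = 0
    · right
      rw [coe_aeval_eq_eval]
      intro h
      apply deriv2_ne k hb
      rw [deriv_TT]
      simp only [derivative_mul, eval_add, eval_mul, h, hb, mul_zero, add_zero]
    · left
      rwa [coe_aeval_eq_eval]
  rw [Multiset.toFinset_card_of_nodup h1, ← (IsAlgClosed.splits (UU k)).natDegree_eq_card_roots]
  exact Chebyshev.natDegree_U_natCast ℂ k

/-- The expansion at a critical point. -/
lemma expand_crit (k : ℕ) {b : ℂ} (hb : (UU k).eval b = 0) :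
    ∃ r : ℂ[X], (TT k).comp (X + C b) = C ((TT k).eval b) + X ^ 2 * r ∧ r.eval 0 ≠ 0 := by
  obtain ⟨s, hs⟩ : X ∣ (TT k).comp (X + C b) - C ((TT k).eval b) := by
    rw [X_dvd_iff, coeff_zero_eq_eval_zero]
    simp [eval_comp]
  have hd : (derivative (TT k)).comp (X + C b) = s + X * derivative s := by
    have h1 := congrArg derivative hs
    simp [derivative_comp] at h1
    exact h1
  obtain ⟨r, hr⟩ : X ∣ s := by
    rw [X_dvd_iff, coeff_zero_eq_eval_zero]
    have h1 := congrArg (eval 0) hd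
    simp only [eval_comp, eval_add, eval_X, eval_C, zero_add, eval_mul, zero_mul, add_zero] at h1
    rw [← h1, deriv_TT_eval, hb, mul_zero]
  refine ⟨r, by rw [pow_two, mul_assoc, ← hr, ← hs]; ring, ?_⟩
  intro h0
  apply deriv2_ne k hb
  have h1 := congrArg derivative hd
  have h2 := congrArg (eval 0) h1
  rw [hr] at h2
  simp [derivative_comp, eval_comp] at h2
  rw [h2, h0]
  simp

/-- The expansion at the point `1`. -/
lemma expand_one (k : ℕ) :
    ∃ t : ℂ[X], (TT k).comp (X + C 1) = 1 + X * t ∧ t.eval 0 = (k + 1) ^ 2 := by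
  obtain ⟨s, hs⟩ : X ∣ (TT k).comp (X + C 1) - 1 := by
    rw [X_dvd_iff, coeff_zero_eq_eval_zero]
    simp [eval_comp]
  refine ⟨s, by rw [← hs]; ring, ?_⟩
  have h1 := congrArg derivative hs
  have h2 := congrArg (eval 0) h1
  simp [derivative_comp, eval_comp] at h2
  rw [← h2, ← deriv_TT_one]

end Pool.Agent.K4H44.MXC
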