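import Pool.Agent.K4H44.MXC.Simple

set_option autoImplicit false

/-!
# The curves
-/

namespace Pool.Agent.K4H44.MXC

open MvPolynomial

/-- The homogenised Chebyshev recursion. -/
def hh {A : Type*} [CommRing A] (y z : A) : ℕ → A
  | 0 => 1
  | 1 => y
  | (n + 2) => 2 * y * hh y z (n + 1) - z ^ 2 * hh y z n

/-- The homogeneous Chebyshev polynomial of degree `n` in the variables `x 1`, `x 2`. -/
noncomputable def HH (n : ℕ) : MvPolynomial (Fin 3) ℂ := hh (X 1) (X 2) n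

/-- The form `(y - z) x ^ k + T_(k + 1) (y, z)`. -/
noncomputable def vv (k : ℕ) : MvPolynomial (Fin 3) ℂ := (X 1 - X 2) * X 0 ^ k + HH (k + 1)

/-- The curve. -/
noncomputable def ff (k : ℕ) : MvPolynomial (Fin 3) ℂ := X 2 * (vv k ^ 2 - X 2 ^ (2 * (k + 1)))

lemma map_hh {A B : Type*} [CommRing A] [CommRing B] (φ : A →+* B) (y z : A) (n : ℕ) :
    φ (hh y z n) = hh (φ y) (φ z) n := by
  induction n using Nat.twoStepInduction with
  | zero => simp [hh]
  | one => simp [hh]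
  | more n h1 h2 =>
    simp only [hh, map_sub, map_mul, map_pow, map_ofNat, h1, h2]

lemma hh_one {A : Type*} [CommRing A] [Algebra ℂ A] (y : A) (n : ℕ) :
    hh y 1 n = Polynomial.aeval y (Polynomial.Chebyshev.T ℂ (n : ℤ)) := by
  induction n using Nat.twoStepInduction with
  | zero => simp [hh]
  | one => simp [hh]
  | more n h1 h2 =>
    have h3 := Polynomial.Chebyshev.T_add_two ℂ (n : ℤ)
    push_cast at h1 h2 ⊢
    rw [h3]
    simp only [hh, map_sub, map_mul, map_ofNat, Polynomial.aeval_X, h1, h2, one_pow, one_mul]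

lemma hh_zero_zero (n : ℕ) : hh (0 : ℂ) 0 (n + 1) = 0 := by
  cases n with
  | zero => simp [hh]
  | succ n => simp [hh]

lemma hh_one_zero (n : ℕ) : hh (1 : ℂ) 0 (n + 1) = 2 ^ n := by
  induction n with
  | zero => simp [hh]
  | succ n ih =>
    have : hh (1 : ℂ) 0 (n + 1 + 1) = 2 * 1 * hh (1 : ℂ) 0 (n + 1) - 0 ^ 2 * hh (1 : ℂ) 0 n := rfl
    rw [this, ih]
    ring

lemma pd_hh (y z : MvPolynomial (Fin 2) ℂ) (hy : pderiv 0 y = 0) (hz : pderiv 0 z = 0) (n : ℕ) :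
    pderiv 0 (hh y z n) = 0 := by
  induction n using Nat.twoStepInduction with
  | zero => simp [hh]
  | one => simp [hh, hy]
  | more n h1 h2 =>
    have : hh y z (n + 2) = 2 * y * hh y z (n + 1) - z ^ 2 * hh y z n := rfl
    have h3 : pderiv (R := ℂ) (0 : Fin 2) (2 : MvPolynomial (Fin 2) ℂ) = 0 := by
      rw [← C_two]
      simp
    rw [this]
    simp [Derivation.leibniz_pow, h1, h2, hy, hz, h3]

lemma hom_congr {φ : MvPolynomial (Fin 3) ℂ} {a b : ℕ} (h : φ.IsHomogeneous a) (e : a = b) :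
    φ.IsHomogeneous b := e ▸ h

lemma HH_homogeneous (n : ℕ) : (HH n).IsHomogeneous n := by
  unfold HH
  induction n using Nat.twoStepInduction with
  | zero => exact isHomogeneous_one _ _
  | one => exact isHomogeneous_X _ _
  | more n h1 h2 =>
    have : hh (X 1 : MvPolynomial (Fin 3) ℂ) (X 2) (n + 2) =
      2 * X 1 * hh (X 1) (X 2) (n + 1) - X 2 ^ 2 * hh (X 1) (X 2) n := rfl
    rw [this]
    apply IsHomogeneous.sub
    · have e1 : (2 * X 1 : MvPolynomial (Fin 3) ℂ) = C 2 * X 1 := by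
        rw [map_ofNat]
      rw [e1]
      exact hom_congr
        (((isHomogeneous_C (Fin 3) (2 : ℂ)).mul (isHomogeneous_X ℂ (1 : Fin 3))).mul h2) (by omega)
    · exact hom_congr (((isHomogeneous_X ℂ (2 : Fin 3)).pow 2).mul h1) (by omega)

lemma vv_homogeneous (k : ℕ) : (vv k).IsHomogeneous (k + 1) := by
  unfold vv
  apply IsHomogeneous.add _ (HH_homogeneous _)
  exact hom_congr (((isHomogeneous_X ℂ (1 : Fin 3)).sub (isHomogeneous_X ℂ (2 : Fin 3))).mul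
    ((isHomogeneous_X ℂ (0 : Fin 3)).pow k)) (by omega)

lemma ff_homogeneous (k : ℕ) : (ff k).IsHomogeneous (2 * (k + 1) + 1) := by
  unfold ff
  have h1 := (vv_homogeneous k).pow 2
  have h2 := (isHomogeneous_X ℂ (2 : Fin 3)).pow (2 * (k + 1))
  have h3 : (k + 1) * 2 = 1 * (2 * (k + 1)) := by ring
  rw [h3] at h1
  exact hom_congr ((isHomogeneous_X ℂ (2 : Fin 3)).mul (h1.sub h2)) (by omega)

lemma aeval_ff (k : ℕ) (w : Fin 3 → MvPolynomial (Fin 2) ℂ) :
    aeval w (ff k) = w 2 * (((w 1 - w 2) * w 0 ^ k + hh (w 1) (w 2) (k + 1)) ^ 2 -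
      w 2 ^ (2 * (k + 1))) := by
  have h1 : aeval w (HH (k + 1)) = hh (w 1) (w 2) (k + 1) := by
    unfold HH
    have := map_hh (aeval (R := ℂ) w).toRingHom (X 1) (X 2) (k + 1)
    simpa using this
  unfold ff vv
  simp only [map_mul, map_sub, map_pow, map_add, aeval_X, h1]

lemma localEq2 (k : ℕ) (v : Fin 3 → ℂ) (h2 : v 2 ≠ 0) :
    localEq (ff k) v = pp k (v 0 / v 2) (v 1 / v 2) ^ 2 - 1 := by
  have hc : chart v = 2 := by
    unfold chart
    rw [if_pos h2]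
  unfold localEq
  rw [hc, aeval_ff]
  have e0 : Fin.insertNth (α := fun _ => MvPolynomial (Fin 2) ℂ) (2 : Fin 3) 1
    (fun j => C (v ((2 : Fin 3).succAbove j) / v 2) + X j) 0 = C (v 0 / v 2) + X 0 := rfl
  have e1 : Fin.insertNth (α := fun _ => MvPolynomial (Fin 2) ℂ) (2 : Fin 3) 1
    (fun j => C (v ((2 : Fin 3).succAbove j) / v 2) + X j) 1 = C (v 1 / v 2) + X 1 := rfl
  have e2 : Fin.insertNth (α := fun _ => MvPolynomial (Fin 2) ℂ) (2 : Fin 3) 1
    (fun j => C (v ((2 : Fin 3).succAbove j) / v 2) + X j) 2 = 1 := rfl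
  rw [e0, e1, e2, hh_one, one_pow, one_mul]
  rfl

lemma localEq1 (k : ℕ) (v : Fin 3 → ℂ) (h2 : v 2 = 0) (h1 : v 1 ≠ 0) :
    localEq (ff k) v = X 1 * (((1 - X 1) * (C (v 0 / v 1) + X 0) ^ k + hh 1 (X 1) (k + 1)) ^ 2 -
      X 1 ^ (2 * (k + 1))) := by
  have hc : chart v = 1 := by
    unfold chart
    rw [if_neg (by simp [h2]), if_pos h1]
  unfold localEq
  rw [hc, aeval_ff]
  have e0 : Fin.insertNth (α := fun _ => MvPolynomial (Fin 2) ℂ) (1 : Fin 3) 1
    (fun j => C (v ((1 : Fin 3).succAbove j) / v 1) + X j) 0 = C (v 0 / v 1) + X 0 := rfl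
  have e1 : Fin.insertNth (α := fun _ => MvPolynomial (Fin 2) ℂ) (1 : Fin 3) 1
    (fun j => C (v ((1 : Fin 3).succAbove j) / v 1) + X j) 1 = 1 := rfl
  have e2 : Fin.insertNth (α := fun _ => MvPolynomial (Fin 2) ℂ) (1 : Fin 3) 1
    (fun j => C (v ((1 : Fin 3).succAbove j) / v 1) + X j) 2 = C (v 2 / v 1) + X 1 := rfl
  rw [e0, e1, e2, h2, zero_div, map_zero, zero_add]

lemma localEq0 (k : ℕ) (v : Fin 3 → ℂ) (h2 : v 2 = 0) (h1 : v 1 = 0) :
    localEq (ff k) v = X 1 * ((X 0 - X 1 + hh (X 0) (X 1) (k + 1)) ^ 2 -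
      X 1 ^ (2 * (k + 1))) := by
  have hc : chart v = 0 := by
    unfold chart
    rw [if_neg (by simp [h2]), if_neg (by simp [h1])]
  unfold localEq
  rw [hc, aeval_ff]
  have e0 : Fin.insertNth (α := fun _ => MvPolynomial (Fin 2) ℂ) (0 : Fin 3) 1
    (fun j => C (v ((0 : Fin 3).succAbove j) / v 0) + X j) 0 = 1 := rfl
  have e1 : Fin.insertNth (α := fun _ => MvPolynomial (Fin 2) ℂ) (0 : Fin 3) 1
    (fun j => C (v ((0 : Fin 3).succAbove j) / v 0) + X j) 1 = C (v 1 / v 0) + X 0 := rfl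
  have e2 : Fin.insertNth (α := fun _ => MvPolynomial (Fin 2) ℂ) (0 : Fin 3) 1
    (fun j => C (v ((0 : Fin 3).succAbove j) / v 0) + X j) 2 = C (v 2 / v 0) + X 1 := rfl
  rw [e0, e1, e2, h2, h1, zero_div, map_zero, zero_add, zero_add, one_pow, mul_one]

lemma cc_hh (y z : MvPolynomial (Fin 2) ℂ) (n : ℕ) :
    constantCoeff (hh y z n) = hh (constantCoeff y) (constantCoeff z) n :=
  map_hh (constantCoeff : MvPolynomial (Fin 2) ℂ →+* ℂ) y z n

/-- The form `v` in the chart `y = 1`. -/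
noncomputable def v1 (k : ℕ) (a : ℂ) : MvPolynomial (Fin 2) ℂ :=
  (1 - X 1) * (C a + X 0) ^ k + hh 1 (X 1) (k + 1)

/-- The form `v` in the chart `x = 1`. -/
noncomputable def v0 (k : ℕ) : MvPolynomial (Fin 2) ℂ := X 0 - X 1 + hh (X 0) (X 1) (k + 1)

lemma cc_v1 (k : ℕ) (a : ℂ) : constantCoeff (v1 k a) = a ^ k + 2 ^ k := by
  unfold v1
  rw [map_add, cc_hh]
  simp [hh_one_zero]

lemma pd_v1 (k : ℕ) (a : ℂ) : constantCoeff (pderiv 0 (v1 k a)) = k * a ^ (k - 1) := by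
  unfold v1
  rw [map_add, pd_hh _ _ (by simp) (by simp [pderiv_X])]
  simp [pderiv_X, Derivation.leibniz_pow]

lemma cc_v0 (k : ℕ) : constantCoeff (v0 k) = 0 := by
  unfold v0
  rw [map_add, cc_hh]
  simp [hh_zero_zero]

lemma pd_v0 (k : ℕ) (hk : 1 ≤ k) : constantCoeff (pderiv 0 (v0 k)) = 1 := by
  obtain ⟨n, rfl⟩ : ∃ n, k = n + 1 := ⟨k - 1, by omega⟩
  unfold v0
  have : hh (X 0 : MvPolynomial (Fin 2) ℂ) (X 1) (n + 1 + 1) =
    2 * X 0 * hh (X 0) (X 1) (n + 1) - X 1 ^ 2 * hh (X 0) (X 1) n := rfl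
  rw [this]
  have h1 : constantCoeff (hh (X 0 : MvPolynomial (Fin 2) ℂ) (X 1) (n + 1)) = 0 := by
    rw [cc_hh]
    simp [hh_zero_zero]
  simp [pderiv_X, Derivation.leibniz_pow, h1]

end Pool.Agent.K4H44.MXC
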