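import Pool.Agent.K4H44.MXC.Defs

set_option autoImplicit false

/-!
# Dimensions of quotients of the local ring of the affine plane at the origin
-/

namespace Pool.Agent.K4H44.MXC

open MvPolynomial

/-- The image of a polynomial in the local ring. -/
noncomputable abbrev io (g : MvPolynomial (Fin 2) ℂ) : Loc := algebraMap _ Loc g

lemma io_inj : Function.Injective io :=
  IsLocalization.injective Loc (M := origin.primeCompl) (Ideal.primeCompl_le_nonZeroDivisors _)

lemma isUnit_io {g : MvPolynomial (Fin 2) ℂ} (h : constantCoeff g ≠ 0) : IsUnit (io g) :=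
  (IsLocalization.AtPrime.isUnit_to_map_iff Loc origin g).2 h

/-- The length over `ℂ` of the quotient by an ideal. -/
noncomputable def dl (J : Ideal Loc) : ℕ∞ := Module.length ℂ (Loc ⧸ J)

lemma dl_top : dl ⊤ = 0 := by
  unfold dl
  rw [Module.length_eq_zero_iff]
  exact Ideal.Quotient.subsingleton_iff.2 rfl

lemma dl_add (J J' : Ideal Loc) (z : Loc) (h : ∀ a, a ∈ J' ↔ z * a ∈ J) :
    dl J = dl J' + dl (J ⊔ Ideal.span {z}) := by
  have h1 : J' ≤ Submodule.comap (LinearMap.mulLeft Loc z) J := fun a ha => (h a).1 ha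
  let f : (Loc ⧸ J') →ₗ[Loc] (Loc ⧸ J) := Submodule.mapQ J' J (LinearMap.mulLeft Loc z) h1
  let g : (Loc ⧸ J) →ₗ[Loc] (Loc ⧸ (J ⊔ Ideal.span {z})) :=
    Submodule.mapQ J (J ⊔ Ideal.span {z}) LinearMap.id le_sup_left
  refine Module.length_eq_add_of_exact (f.restrictScalars ℂ) (g.restrictScalars ℂ) ?_ ?_ ?_
  · intro a b hab
    obtain ⟨a, rfl⟩ := Submodule.Quotient.mk_surjective _ a
    obtain ⟨b, rfl⟩ := Submodule.Quotient.mk_surjective _ b
    have h2 : (Submodule.Quotient.mk (z * a) : Loc ⧸ J) = Submodule.Quotient.mk (z * b) := hab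
    rw [Submodule.Quotient.eq] at h2 ⊢
    rw [← mul_sub] at h2
    exact (h _).2 h2
  · intro a
    obtain ⟨a, rfl⟩ := Submodule.Quotient.mk_surjective _ a
    exact ⟨Submodule.Quotient.mk a, rfl⟩
  · intro a
    obtain ⟨a, rfl⟩ := Submodule.Quotient.mk_surjective _ a
    have h2 : (g.restrictScalars ℂ) (Submodule.Quotient.mk a) = Submodule.Quotient.mk a := rfl
    rw [h2, Submodule.Quotient.mk_eq_zero]
    constructor
    · intro ha
      obtain ⟨j, hj, y, hy, hjy⟩ := Submodule.mem_sup.1 ha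
      obtain ⟨c, rfl⟩ := Ideal.mem_span_singleton'.1 hy
      refine ⟨Submodule.Quotient.mk c, ?_⟩
      have h3 : (f.restrictScalars ℂ) (Submodule.Quotient.mk c) = Submodule.Quotient.mk (z * c) :=
        rfl
      rw [h3, Submodule.Quotient.eq]
      have : z * c - a = - j := by rw [← hjy]; ring
      rw [this]
      exact J.neg_mem hj
    · rintro ⟨c, hc⟩
      obtain ⟨c, rfl⟩ := Submodule.Quotient.mk_surjective _ c
      have h3 : (f.restrictScalars ℂ) (Submodule.Quotient.mk c) = Submodule.Quotient.mk (z * c) :=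
        rfl
      rw [h3, Submodule.Quotient.eq] at hc
      have : a = -(z * c - a) + c * z := by ring
      rw [this]
      exact Submodule.add_mem_sup (J.neg_mem hc) (Ideal.mem_span_singleton'.2 ⟨c, rfl⟩)

lemma decomp (g : MvPolynomial (Fin 2) ℂ) :
    ∃ a b, g = C (constantCoeff g) + X 0 * a + X 1 * b := by
  induction g using MvPolynomial.induction_on with
  | C c => exact ⟨0, 0, by simp⟩
  | add p q hp hq =>
    obtain ⟨a, b, h⟩ := hp
    obtain ⟨a', b', h'⟩ := hq
    refine ⟨a + a', b + b', ?_⟩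
    rw [map_add, map_add]
    linear_combination h + h'
  | mul_X p i hp =>
    fin_cases i
    · exact ⟨p, 0, by simp; ring⟩
    · exact ⟨0, p, by simp; ring⟩

lemma dl_origin : dl (Ideal.span {io (X 0), io (X 1)}) = 1 := by
  set J : Ideal Loc := Ideal.span {io (X 0), io (X 1)} with hJ
  have h0 : J ≤ IsLocalRing.maximalIdeal Loc := by
    rw [hJ, Ideal.span_le]
    intro x hx
    rcases hx with rfl | rfl
    · rw [SetLike.mem_coe, IsLocalization.AtPrime.to_map_mem_maximal_iff Loc origin]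
      simp [origin]
    · rw [SetLike.mem_coe, IsLocalization.AtPrime.to_map_mem_maximal_iff Loc origin]
      simp [origin]
  have hmem : ∀ g : MvPolynomial (Fin 2) ℂ, constantCoeff g = 0 → io g ∈ J := by
    intro g hg
    obtain ⟨a, b, h⟩ := decomp g
    rw [h, hg, hJ, Ideal.mem_span_pair]
    refine ⟨io a, io b, ?_⟩
    simp only [io, map_zero, zero_add, map_add, map_mul]
    ring
  have hbij : Function.Bijective ((Ideal.Quotient.mkₐ ℂ J).toLinearMap ∘ₗ
      Algebra.linearMap ℂ Loc) := by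
    constructor
    · rw [injective_iff_map_eq_zero]
      intro c hc
      by_contra hc0
      have h1 : algebraMap ℂ Loc c ∈ J := Ideal.Quotient.eq_zero_iff_mem.1 hc
      have h2 := h0 h1
      rw [IsLocalRing.mem_maximalIdeal] at h2
      exact h2 ((IsUnit.mk0 c hc0).map (algebraMap ℂ Loc))
    · intro l
      obtain ⟨l, rfl⟩ := Ideal.Quotient.mk_surjective l
      obtain ⟨⟨r, s⟩, hrs⟩ := IsLocalization.surj origin.primeCompl l
      have hs : constantCoeff (s : MvPolynomial (Fin 2) ℂ) ≠ 0 := s.2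
      set c : ℂ := constantCoeff r / constantCoeff (s : MvPolynomial (Fin 2) ℂ) with hc
      refine ⟨c, ?_⟩
      have h1 : io (r - C c * (s : MvPolynomial (Fin 2) ℂ)) ∈ J := by
        apply hmem
        simp only [map_sub, map_mul, constantCoeff_C, hc]
        field_simp
        ring
      have h2 : io (r - C c * (s : MvPolynomial (Fin 2) ℂ)) =
          (l - algebraMap ℂ Loc c) * io (s : MvPolynomial (Fin 2) ℂ) := by
        have h3 : io (C c) = algebraMap ℂ Loc c := by
          rw [IsScalarTower.algebraMap_apply ℂ (MvPolynomial (Fin 2) ℂ) Loc]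
          rfl
        simp only [io, map_sub, map_mul] at h3 ⊢
        rw [h3, ← hrs]
        ring
      rw [h2] at h1
      have h4 : l - algebraMap ℂ Loc c ∈ J := by
        obtain ⟨u, hu⟩ := isUnit_io hs
        have := J.mul_mem_right (↑u⁻¹) h1
        rwa [← hu, mul_assoc, Units.mul_inv, mul_one] at this
      exact (Ideal.Quotient.eq.2 h4).symm
  have e := LinearEquiv.ofBijective _ hbij
  unfold dl
  rw [← e.length_eq, Module.length_eq_finrank, Module.finrank_self, Nat.cast_one]

lemma io_ne_zero {g : MvPolynomial (Fin 2) ℂ} (h : g ≠ 0) : io g ≠ 0 := fun h4 =>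
  h (io_inj (h4.trans (map_zero _).symm))

/-- `z = 0` is one of the coordinate axes. -/
lemma prime_io (i : Fin 2) : Prime (io (X i)) := by
  have h1 : (Ideal.span {(X i : MvPolynomial (Fin 2) ℂ)}).IsPrime :=
    (Ideal.span_singleton_prime (X_ne_zero i)).2 X_prime
  have h2 : Ideal.span {(X i : MvPolynomial (Fin 2) ℂ)} ≤ origin := by
    rw [Ideal.span_singleton_le_iff_mem]
    simp [origin, RingHom.mem_ker]
  have h3 := Ideal.isPrime_map_of_isLocalizationAtPrime origin (S := Loc) h2
  rw [Ideal.map_span, Set.image_singleton, Ideal.span_singleton_prime] at h3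
  · exact h3
  · exact io_ne_zero (X_ne_zero i)

lemma io_dvd {i : Fin 2} {g : MvPolynomial (Fin 2) ℂ} (h : io (X i) ∣ io g) : X i ∣ g := by
  obtain ⟨l, hl⟩ := h
  obtain ⟨⟨r, s⟩, hrs⟩ := IsLocalization.surj origin.primeCompl l
  have h1 : g * (s : MvPolynomial (Fin 2) ℂ) = X i * r := by
    apply io_inj
    simp only [io, map_mul] at hl ⊢
    rw [hl, mul_assoc, hrs]
  have h2 : (X i : MvPolynomial (Fin 2) ℂ) ∣ g * (s : MvPolynomial (Fin 2) ℂ) := ⟨r, h1⟩
  rcases X_prime.dvd_or_dvd h2 with h3 | h3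
  · exact h3
  · exfalso
    obtain ⟨t, ht⟩ := h3
    apply s.2
    change constantCoeff (s : MvPolynomial (Fin 2) ℂ) = 0
    rw [ht]
    simp

lemma dl_pow (a z : Loc) (hz : Prime z) (ha : ¬ z ∣ a) (n : ℕ) :
    dl (Ideal.span {a, z ^ n}) = n * dl (Ideal.span {a, z}) := by
  induction n with
  | zero =>
    have : Ideal.span {a, z ^ 0} = ⊤ := by
      rw [Ideal.eq_top_iff_one]
      exact Ideal.subset_span (by simp)
    rw [this, dl_top]
    simp
  | succ n ih =>
    have hsup : Ideal.span {a, z ^ (n + 1)} ⊔ Ideal.span {z} = Ideal.span {a, z} := by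
      rw [← Ideal.span_union]
      apply le_antisymm
      · rw [Ideal.span_le]
        rintro x ((rfl | rfl) | rfl)
        · exact Ideal.subset_span (by simp)
        · rw [pow_succ]
          exact Ideal.mul_mem_left _ _ (Ideal.subset_span (by simp))
        · exact Ideal.subset_span (by simp)
      · rw [Ideal.span_le]
        rintro x (rfl | rfl)
        · exact Ideal.subset_span (by simp)
        · exact Ideal.subset_span (by simp)
    rw [dl_add _ (Ideal.span {a, z ^ n}) z, hsup, ih, Nat.cast_add, add_mul, Nat.cast_one, one_mul]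
    intro x
    rw [Ideal.mem_span_pair, Ideal.mem_span_pair]
    constructor
    · rintro ⟨p, q, rfl⟩
      exact ⟨z * p, q, by ring⟩
    · rintro ⟨p, q, h⟩
      have h1 : z ∣ p * a := ⟨x - q * z ^ n, by rw [mul_sub, ← h]; ring⟩
      obtain ⟨p', rfl⟩ := (hz.dvd_or_dvd h1).resolve_right ha
      refine ⟨p', q, mul_left_cancel₀ hz.ne_zero ?_⟩
      rw [← h]
      ring

lemma dl_sq (v z : Loc) (hz : Prime z) (ha : ¬ z ∣ v) :
    dl (Ideal.span {z, v ^ 2}) = 2 * dl (Ideal.span {z, v}) := by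
  have hsup : Ideal.span {z, v ^ 2} ⊔ Ideal.span {v} = Ideal.span {z, v} := by
    rw [← Ideal.span_union]
    apply le_antisymm
    · rw [Ideal.span_le]
      rintro x ((rfl | rfl) | rfl)
      · exact Ideal.subset_span (by simp)
      · rw [pow_two]
        exact Ideal.mul_mem_left _ _ (Ideal.subset_span (by simp))
      · exact Ideal.subset_span (by simp)
    · rw [Ideal.span_le]
      rintro x (rfl | rfl)
      · exact Ideal.subset_span (by simp)
      · exact Ideal.subset_span (by simp)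
  rw [dl_add _ (Ideal.span {z, v}) v, hsup, two_mul]
  intro x
  rw [Ideal.mem_span_pair, Ideal.mem_span_pair]
  constructor
  · rintro ⟨p, q, rfl⟩
    exact ⟨v * p, q, by ring⟩
  · rintro ⟨p, q, h⟩
    have h1 : z ∣ v * (x - q * v) := ⟨p, by rw [mul_sub, ← h]; ring⟩
    obtain ⟨p', h2⟩ := (hz.dvd_or_dvd h1).resolve_left ha
    exact ⟨p', q, by linear_combination -h2⟩

lemma dl_D (v z c : Loc) (hz : Prime z) (ha : ¬ z ∣ v) (hc : IsUnit c) (n : ℕ) :
    dl (Ideal.span {z * v, v ^ 2 - c * z ^ (n + 1)}) = ((n + 1 + 2 : ℕ) : ℕ∞) *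
      dl (Ideal.span {v, z}) := by
  have hsup : Ideal.span {z * v, v ^ 2 - c * z ^ (n + 1)} ⊔ Ideal.span {z} =
      Ideal.span {z, v ^ 2} := by
    rw [← Ideal.span_union]
    have hzm : z ∈ Ideal.span {z, v ^ 2} := Ideal.subset_span (by simp)
    apply le_antisymm
    · rw [Ideal.span_le]
      rintro x ((rfl | rfl) | rfl)
      · exact Ideal.mul_mem_right _ _ hzm
      · refine Ideal.sub_mem _ (Ideal.subset_span (by simp)) (Ideal.mul_mem_left _ _ ?_)
        rw [pow_succ]
        exact Ideal.mul_mem_left _ _ hzm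
      · exact hzm
    · rw [Ideal.span_le]
      have hzm' : z ∈ Ideal.span ({z * v, v ^ 2 - c * z ^ (n + 1)} ∪ {z}) :=
        Ideal.subset_span (by simp)
      rintro x (rfl | rfl)
      · exact hzm'
      · have h1 : v ^ 2 = (v ^ 2 - c * z ^ (n + 1)) + (c * z ^ n) * z := by ring
        have h2 := Ideal.add_mem (Ideal.span ({z * v, v ^ 2 - c * z ^ (n + 1)} ∪ {z}))
          (Ideal.subset_span (by simp : v ^ 2 - c * z ^ (n + 1) ∈
            ({z * v, v ^ 2 - c * z ^ (n + 1)} ∪ {z} : Set Loc)))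
          (Ideal.mul_mem_left _ (c * z ^ n) hzm')
        rwa [← h1] at h2
  obtain ⟨c, rfl⟩ := hc
  rw [dl_add _ (Ideal.span {v, z ^ (n + 1)}) z, hsup, dl_sq v z hz ha, dl_pow v z hz ha,
    Set.pair_comm z v, ← add_mul]
  · norm_cast
  intro x
  rw [Ideal.mem_span_pair, Ideal.mem_span_pair]
  constructor
  · rintro ⟨p, q, rfl⟩
    refine ⟨p + q * ↑c⁻¹ * v, - q * ↑c⁻¹ * z, ?_⟩
    have h1 : (↑c⁻¹ : Loc) * c = 1 := Units.inv_mul c
    linear_combination (q * z * z ^ (n + 1)) * h1
  · rintro ⟨p, q, h⟩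
    have h1 : z ∣ q * (v * v) := ⟨x - p * v + q * c * z ^ n, by linear_combination h⟩
    rcases hz.dvd_or_dvd h1 with h2 | h2
    · obtain ⟨q', rfl⟩ := h2
      refine ⟨p + q' * v, - q' * c, mul_left_cancel₀ hz.ne_zero ?_⟩
      linear_combination h
    · exact absurd ((hz.dvd_or_dvd h2).elim id id) ha

/-- A second coordinate. -/
lemma span_coord {v : MvPolynomial (Fin 2) ℂ} (h0 : constantCoeff v = 0)
    (h1 : constantCoeff (pderiv 0 v) ≠ 0) :
    Ideal.span {io v, io (X 1)} = Ideal.span {io (X 0), io (X 1)} := by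
  obtain ⟨a, b, h⟩ := decomp v
  rw [h0, map_zero, zero_add] at h
  have ha : constantCoeff a ≠ 0 := by
    rw [h] at h1
    simpa [pderiv_X] using h1
  obtain ⟨u, hu⟩ := isUnit_io ha
  have h2 : io v = io (X 0) * u + io (X 1) * io b := by
    rw [hu, h]
    simp only [io, map_add, map_mul]
  apply le_antisymm
  · rw [Ideal.span_le]
    rintro x (rfl | rfl)
    · rw [h2]
      exact Ideal.add_mem _ (Ideal.mul_mem_right _ _ (Ideal.subset_span (by simp)))
        (Ideal.mul_mem_right _ _ (Ideal.subset_span (by simp)))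
    · exact Ideal.subset_span (by simp)
  · rw [Ideal.span_le]
    rintro x (rfl | rfl)
    · rw [SetLike.mem_coe, Ideal.mem_span_pair]
      refine ⟨↑u⁻¹, - io b * ↑u⁻¹, ?_⟩
      have h3 : (u : Loc) * ↑u⁻¹ = 1 := Units.mul_inv u
      rw [h2]
      linear_combination (io (X 0)) * h3
    · exact Ideal.subset_span (by simp)

lemma not_dvd {v : MvPolynomial (Fin 2) ℂ} (h1 : constantCoeff (pderiv 0 v) ≠ 0) :
    ¬ io (X 1) ∣ io v := by
  intro h
  obtain ⟨c, rfl⟩ := io_dvd h
  apply h1
  simp [pderiv_X]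

/-- The Tjurina number of `g` is `n`, and the algebra is finite dimensional. -/
def HasTj (g : MvPolynomial (Fin 2) ℂ) (n : ℕ) : Prop :=
  Module.Finite ℂ (Loc ⧸ tjIdeal g) ∧ tj g = n

lemma hasTj_of_dl {g : MvPolynomial (Fin 2) ℂ} {n : ℕ} (h : dl (tjIdeal g) = n) : HasTj g n := by
  have hfin : Module.Finite ℂ (Loc ⧸ tjIdeal g) := by
    have h1 : Module.length ℂ (Loc ⧸ tjIdeal g) ≠ ⊤ := by
      unfold dl at h
      rw [h]
      exact ENat.natCast_ne_top n
    rw [Module.length_ne_top_iff, isFiniteLength_iff_isNoetherian_isArtinian] at h1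
    have := h1.1
    infer_instance
  refine ⟨hfin, ?_⟩
  unfold dl at h
  rw [Module.length_eq_finrank] at h
  exact_mod_cast h

lemma hasTj_zero {g : MvPolynomial (Fin 2) ℂ} (h : tjIdeal g = ⊤) : HasTj g 0 :=
  hasTj_of_dl (by rw [h, dl_top]; rfl)

lemma tjIdeal_top_of {g h : MvPolynomial (Fin 2) ℂ} (hm : io h ∈ tjIdeal g)
    (hh : constantCoeff h ≠ 0) : tjIdeal g = ⊤ :=
  Ideal.eq_top_of_isUnit_mem _ hm (isUnit_io hh)

end Pool.Agent.K4H44.MXC
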