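import Pool.Agent.K4H44.MXC.Curve

set_option autoImplicit false

/-!
# The main theorem
-/

namespace Pool.Agent.K4H44.MXC

open MvPolynomial

/-- Normalised homogeneous coordinates. -/
noncomputable def par : (ℂ × ℂ) ⊕ (ℂ ⊕ Unit) → (Fin 3 → ℂ)
  | .inl x => ![x.1, x.2, 1]
  | .inr (.inl a) => ![a, 1, 0]
  | .inr (.inr _) => ![1, 0, 0]

lemma par_ne (x : (ℂ × ℂ) ⊕ (ℂ ⊕ Unit)) : par x ≠ 0 := by
  rcases x with x | a | u
  · intro h
    have := congrFun h 2
    simp [par] at this
  · intro h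
    have := congrFun h 1
    simp [par] at this
  · intro h
    have := congrFun h 0
    simp [par] at this

/-- The point with given normalised coordinates. -/
noncomputable def pt (x : (ℂ × ℂ) ⊕ (ℂ ⊕ Unit)) : Plane := Projectivization.mk ℂ (par x) (par_ne x)

lemma pt_bij : Function.Bijective pt := by
  constructor
  · intro x y h
    obtain ⟨c, hc⟩ := (Projectivization.mk_eq_mk_iff' ℂ _ _ (par_ne x) (par_ne y)).1 h
    have h0 := congrFun hc 0
    have h1 := congrFun hc 1
    have h2 := congrFun hc 2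
    rcases x with x | a | u <;> rcases y with y | b | w
    · simp [par] at h0 h1 h2
      subst h2
      simp at h0 h1
      rw [show x = y from Prod.ext h0.symm h1.symm]
    · simp [par] at h2
    · simp [par] at h2
    · simp [par] at h1 h2
      rw [h2] at h1
      simp at h1
    · simp [par] at h0 h1
      subst h1
      simp at h0
      rw [h0]
    · simp [par] at h1
    · simp [par] at h0 h2
      rw [h2] at h0
      simp at h0
    · simp [par] at h0 h1
      rw [h1] at h0
      simp at h0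
    · rfl
  · intro p
    induction p using Projectivization.ind with
    | h v hv =>
      by_cases h2 : v 2 = 0
      · by_cases h1 : v 1 = 0
        · have h0 : v 0 ≠ 0 := by
            intro h0
            apply hv
            funext i
            fin_cases i
            · exact h0
            · exact h1
            · exact h2
          refine ⟨.inr (.inr ()), (Projectivization.mk_eq_mk_iff' ℂ _ _ _ _).2 ⟨(v 0)⁻¹, ?_⟩⟩
          funext i
          fin_cases i <;> simp [par, h0, h1, h2]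
        · refine ⟨.inr (.inl (v 0 / v 1)), (Projectivization.mk_eq_mk_iff' ℂ _ _ _ _).2
            ⟨(v 1)⁻¹, ?_⟩⟩
          funext i
          fin_cases i
          · simp [par]
            ring
          · simp [par, h1]
          · simp [par, h2]
      · refine ⟨.inl (v 0 / v 2, v 1 / v 2), (Projectivization.mk_eq_mk_iff' ℂ _ _ _ _).2
            ⟨(v 2)⁻¹, ?_⟩⟩
        funext i
        fin_cases i
        · simp [par]
          ring
        · simp [par]
          ring
        · simp [par, h2]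

lemma rep_pt (x : (ℂ × ℂ) ⊕ (ℂ ⊕ Unit)) : ∃ c : ℂ, c ≠ 0 ∧ (pt x).rep = c • par x := by
  obtain ⟨c, hc⟩ := Projectivization.exists_smul_eq_mk_rep ℂ (par x) (par_ne x)
  exact ⟨c, c.ne_zero, hc.symm⟩

open Classical in
/-- The Tjurina number at the point with given normalised coordinates. -/
noncomputable def tn (k : ℕ) : (ℂ × ℂ) ⊕ (ℂ ⊕ Unit) → ℕ
  | .inl x => if x.1 = 0 ∧ (UU k).eval x.2 = 0 then k - 1 else
      if x.1 ^ k = -(k + 1) ^ 2 ∧ x.2 = 1 then 1 else 0
  | .inr (.inl a) => if a ^ k = - 2 ^ k then 2 * (k + 1) + 2 else 0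
  | .inr (.inr _) => 2 * (k + 1) + 2

lemma local_all (k : ℕ) (hk : 1 ≤ k) (x : (ℂ × ℂ) ⊕ (ℂ ⊕ Unit)) :
    HasTj (localEq (ff k) (pt x).rep) (tn k x) ∧
      (IsSing (localEq (ff k) (pt x).rep) → IsSimple (localEq (ff k) (pt x).rep)) := by
  obtain ⟨c, hc, hx⟩ := rep_pt x
  rw [hx]
  rcases x with ⟨a, b⟩ | a | u
  · have h2 : (c • par (.inl (a, b))) 2 = c := by simp [par]
    have h0 : (c • par (.inl (a, b))) 0 = c * a := by simp [par]
    have h1 : (c • par (.inl (a, b))) 1 = c * b := by simp [par]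
    rw [localEq2 k _ (by rw [h2]; exact hc), h0, h1, h2, mul_div_cancel_left₀ _ hc,
      mul_div_cancel_left₀ _ hc]
    simp only [tn]
    by_cases e1 : a = 0 ∧ (UU k).eval b = 0
    · rw [if_pos e1]
      obtain ⟨rfl, hb⟩ := e1
      refine ⟨tj_A k hk b hb, fun hs => ?_⟩
      by_cases hk2 : 2 ≤ k
      · exact simple_pp_A k hk2 b hb
      · exfalso
        have hk1 : k = 1 := by omega
        subst hk1
        have h3 := hs.2 0
        have hε : (TT 1).eval b ^ 2 = 1 := by
          have := pell_eval 1 b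
          rw [hb] at this
          linear_combination this
        have hcc : constantCoeff (pp 1 0 b) = (TT 1).eval b := by
          rw [cc_pp]
          ring
        have hb1 : b ≠ 1 := by
          rintro rfl
          rw [UU_one] at hb
          norm_num at hb
        have h4 : constantCoeff (pderiv 0 (pp 1 0 b ^ 2 - 1)) =
            2 * (TT 1).eval b * constantCoeff (pderiv 0 (pp 1 0 b)) := by
          rw [map_sub, Derivation.leibniz_pow, pderiv_one, sub_zero]
          have h5 : constantCoeff (2 : MvPolynomial (Fin 2) ℂ) = 2 := map_ofNat _ 2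
          simp [hcc, h5]
          ring
        rw [h4, cc_pd0] at h3
        have hε0 : (TT 1).eval b ≠ 0 := by
          intro h
          rw [h] at hε
          norm_num at hε
        simp [hε0] at h3
        exact hb1 (sub_eq_zero.1 h3)
    · rw [if_neg e1]
      by_cases e2 : a ^ k = -(k + 1) ^ 2 ∧ b = 1
      · rw [if_pos e2]
        obtain ⟨ha, rfl⟩ := e2
        exact ⟨tj_node k hk a ha, fun _ => simple_pp_node k hk a ha⟩
      · rw [if_neg e2]
        have ht := top_other k hk a b e1 e2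
        exact ⟨hasTj_zero ht, fun hs => absurd ht (isSing_not_top hs)⟩
  · have h2 : (c • par (.inr (.inl a))) 2 = 0 := by simp [par]
    have h0 : (c • par (.inr (.inl a))) 0 = c * a := by simp [par]
    have h1 : (c • par (.inr (.inl a))) 1 = c := by simp [par]
    rw [localEq1 k _ h2 (by rw [h1]; exact hc), h0, h1, mul_div_cancel_left₀ _ hc]
    simp only [tn]
    change HasTj (X 1 * (v1 k a ^ 2 - X 1 ^ (2 * (k + 1)))) _ ∧
      (IsSing (X 1 * (v1 k a ^ 2 - X 1 ^ (2 * (k + 1)))) → IsSimple _)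
    by_cases e1 : a ^ k = - 2 ^ k
    · rw [if_pos e1]
      have hcc : constantCoeff (v1 k a) = 0 := by
        rw [cc_v1, e1]
        ring
      have ha : a ≠ 0 := by
        rintro rfl
        rw [zero_pow (by omega)] at e1
        have : (2 : ℂ) ^ k = 0 := by linear_combination e1
        exact pow_ne_zero k two_ne_zero this
      have hpd : constantCoeff (pderiv 0 (v1 k a)) ≠ 0 := by
        rw [pd_v1]
        exact mul_ne_zero (by exact_mod_cast (by omega : k ≠ 0)) (pow_ne_zero _ ha)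
      exact ⟨tj_D (k + 1) _ hcc hpd (by omega), fun _ => simple_D (k + 1) _ hcc hpd (by omega)⟩
    · rw [if_neg e1]
      have hcc : constantCoeff (v1 k a) ≠ 0 := by
        rw [cc_v1]
        intro h
        exact e1 (by linear_combination h)
      have ht := top_inf (k + 1) _ hcc (by omega)
      exact ⟨hasTj_zero ht, fun hs => absurd ht (isSing_not_top hs)⟩
  · have h2 : (c • par (.inr (.inr u))) 2 = 0 := by simp [par]
    have h1 : (c • par (.inr (.inr u))) 1 = 0 := by simp [par]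
    rw [localEq0 k _ h2 h1]
    have hpd : constantCoeff (pderiv 0 (v0 k)) ≠ 0 := by
      rw [pd_v0 k hk]
      exact one_ne_zero
    exact ⟨tj_D (k + 1) _ (cc_v0 k) hpd (by omega),
      fun _ => simple_D (k + 1) _ (cc_v0 k) hpd (by omega)⟩

lemma card_roots_pow (k : ℕ) (hk : 1 ≤ k) (c : ℂ) (hc : c ≠ 0) :
    (Polynomial.nthRoots k c).toFinset.card = k := by
  have h := Complex.isPrimitiveRoot_exp k (by omega)
  rw [Multiset.toFinset_card_of_nodup (h.nthRoots_nodup hc), h.card_nthRoots, if_pos]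
  exact IsAlgClosed.exists_pow_nat_eq c (by omega)

lemma sum_tn (k : ℕ) (hk : 1 ≤ k) : ∑ᶠ x, tn k x = 3 * (k + 1) ^ 2 + 1 := by
  classical
  set S1 : Finset (ℂ × ℂ) := ({0} : Finset ℂ) ×ˢ (UU k).roots.toFinset with hS1
  set S2 : Finset (ℂ × ℂ) := (Polynomial.nthRoots k (-((k : ℂ) + 1) ^ 2)).toFinset ×ˢ {1} with hS2
  set S3 : Finset ℂ := (Polynomial.nthRoots k (-(2 : ℂ) ^ k)).toFinset with hS3
  have hk1 : (k : ℂ) + 1 ≠ 0 := by exact_mod_cast (by omega : k + 1 ≠ 0)
  have m1 : ∀ x : ℂ × ℂ, x ∈ S1 ↔ x.1 = 0 ∧ (UU k).eval x.2 = 0 := by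
    intro x
    rw [hS1, Finset.mem_product, Finset.mem_singleton, Multiset.mem_toFinset,
      Polynomial.mem_roots (UU_ne_zero k), Polynomial.IsRoot.def]
  have m2 : ∀ x : ℂ × ℂ, x ∈ S2 ↔ x.1 ^ k = -((k : ℂ) + 1) ^ 2 ∧ x.2 = 1 := by
    intro x
    rw [hS2, Finset.mem_product, Finset.mem_singleton, Multiset.mem_toFinset,
      Polynomial.mem_nthRoots (by omega)]
  have m3 : ∀ a : ℂ, a ∈ S3 ↔ a ^ k = -(2 : ℂ) ^ k := by
    intro a
    rw [hS3, Multiset.mem_toFinset, Polynomial.mem_nthRoots (by omega)]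
  have c1 : S1.card = k := by
    rw [hS1, Finset.card_product, Finset.card_singleton, one_mul, card_roots]
  have c2 : S2.card = k := by
    rw [hS2, Finset.card_product, Finset.card_singleton, mul_one, card_roots_pow k hk]
    exact neg_ne_zero.2 (pow_ne_zero 2 hk1)
  have c3 : S3.card = k := by
    rw [hS3, card_roots_pow k hk]
    exact neg_ne_zero.2 (pow_ne_zero k two_ne_zero)
  have hdis : Disjoint S1 S2 := by
    rw [Finset.disjoint_left]
    intro x h1 h2
    rw [m1] at h1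
    rw [m2, h1.1, zero_pow (by omega)] at h2
    exact neg_ne_zero.2 (pow_ne_zero 2 hk1) h2.1.symm
  have hsupp : Function.support (tn k) ⊆
      ((S1 ∪ S2).disjSum (S3.disjSum (Finset.univ : Finset Unit)) : Finset _) := by
    intro x hx
    rw [Function.mem_support] at hx
    rw [Finset.mem_coe]
    rcases x with x | a | u
    · rw [Finset.inl_mem_disjSum, Finset.mem_union, m1, m2]
      by_contra h
      push Not at h
      apply hx
      simp only [tn]
      rw [if_neg (fun h' => h.1 h'.1 h'.2), if_neg (fun h' => h.2 h'.1 h'.2)]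
    · rw [Finset.inr_mem_disjSum, Finset.inl_mem_disjSum, m3]
      by_contra h
      apply hx
      simp only [tn]
      rw [if_neg h]
    · rw [Finset.inr_mem_disjSum, Finset.inr_mem_disjSum]
      exact Finset.mem_univ _
  rw [finsum_eq_sum_of_support_subset _ hsupp, Finset.sum_disjSum, Finset.sum_disjSum,
    Finset.sum_union hdis]
  have s1 : ∑ x ∈ S1, tn k (.inl x) = k * (k - 1) := by
    rw [Finset.sum_congr rfl (g := fun _ => k - 1), Finset.sum_const, c1, smul_eq_mul]
    intro x hx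
    simp only [tn]
    rw [if_pos ((m1 x).1 hx)]
  have s2 : ∑ x ∈ S2, tn k (.inl x) = k := by
    rw [Finset.sum_congr rfl (g := fun _ => 1), Finset.sum_const, c2, smul_eq_mul, mul_one]
    intro x hx
    simp only [tn]
    rw [if_neg, if_pos ((m2 x).1 hx)]
    intro h
    exact Finset.disjoint_left.1 hdis ((m1 x).2 h) hx
  have s3 : ∑ a ∈ S3, tn k (.inr (.inl a)) = k * (2 * (k + 1) + 2) := by
    rw [Finset.sum_congr rfl (g := fun _ => 2 * (k + 1) + 2), Finset.sum_const, c3, smul_eq_mul]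
    intro x hx
    simp only [tn]
    rw [if_pos ((m3 x).1 hx)]
  have s4 : ∑ u : Unit, tn k (.inr (.inr u)) = 2 * (k + 1) + 2 := by
    simp [tn]
  rw [s1, s2, s3, s4]
  obtain ⟨n, rfl⟩ : ∃ n, k = n + 1 := ⟨k - 1, by omega⟩
  simp only [Nat.add_sub_cancel]
  ring

/-- Evaluation of the form `f`. -/
lemma eval_vv (k : ℕ) (w : Fin 3 → ℂ) :
    eval w (vv k) = (w 1 - w 2) * w 0 ^ k + hh (w 1) (w 2) (k + 1) := by
  unfold vv HH
  have := map_hh (eval w) (X 1) (X 2) (k + 1)
  simp only [map_add, map_mul, map_sub, map_pow, eval_X, this]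

lemma pd_HH (n : ℕ) : pderiv 0 (HH n) = 0 := by
  unfold HH
  induction n using Nat.twoStepInduction with
  | zero => simp [hh]
  | one => simp [hh, pderiv_X]
  | more n h1 h2 =>
    have : hh (X 1 : MvPolynomial (Fin 3) ℂ) (X 2) (n + 2) =
      2 * X 1 * hh (X 1) (X 2) (n + 1) - X 2 ^ 2 * hh (X 1) (X 2) n := rfl
    have h3 : pderiv (R := ℂ) (0 : Fin 3) (2 : MvPolynomial (Fin 3) ℂ) = 0 := by
      rw [← (map_ofNat C 2 : (C (2 : ℂ) : MvPolynomial (Fin 3) ℂ) = 2)]
      simp
    rw [this]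
    simp [Derivation.leibniz_pow, h1, h2, h3, pderiv_X]

lemma prime_sub : Prime (X 1 - X 2 : MvPolynomial (Fin 3) ℂ) := by
  let φ : MvPolynomial (Fin 3) ℂ →ₐ[ℂ] MvPolynomial (Fin 3) ℂ := aeval ![X 0, X 1 - X 2, X 2]
  let ψ : MvPolynomial (Fin 3) ℂ →ₐ[ℂ] MvPolynomial (Fin 3) ℂ := aeval ![X 0, X 1 + X 2, X 2]
  have h1 : φ.comp ψ = AlgHom.id ℂ _ := by
    ext i
    fin_cases i <;> simp [φ, ψ]
  have h2 : ψ.comp φ = AlgHom.id ℂ _ := by
    ext i
    fin_cases i <;> simp [φ, ψ]
  let e : MvPolynomial (Fin 3) ℂ ≃ₐ[ℂ] MvPolynomial (Fin 3) ℂ := AlgEquiv.ofAlgHom φ ψ h1 h2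
  have h3 : (e : MvPolynomial (Fin 3) ℂ ≃* MvPolynomial (Fin 3) ℂ) (X 1) = X 1 - X 2 := by
    change φ (X 1) = X 1 - X 2
    simp [φ]
  rw [← h3]
  exact (MulEquiv.prime_iff _).2 X_prime

lemma pd1_HH (x : ℂ) (n : ℕ) : eval ![x, 1, 1] (pderiv 1 (HH n)) = (n : ℂ) ^ 2 ∧
    eval ![x, 1, 1] (HH n) = 1 := by
  unfold HH
  induction n using Nat.twoStepInduction with
  | zero => simp [hh]
  | one => simp [hh, pderiv_X]
  | more n h1 h2 =>
    have : hh (X 1 : MvPolynomial (Fin 3) ℂ) (X 2) (n + 2) =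
      2 * X 1 * hh (X 1) (X 2) (n + 1) - X 2 ^ 2 * hh (X 1) (X 2) n := rfl
    have h3 : pderiv (R := ℂ) (1 : Fin 3) (2 : MvPolynomial (Fin 3) ℂ) = 0 := by
      rw [← (map_ofNat C 2 : (C (2 : ℂ) : MvPolynomial (Fin 3) ℂ) = 2)]
      simp
    rw [this]
    constructor
    · simp [Derivation.leibniz_pow, h1.1, h2.1, h2.2, h3, pderiv_X]
      ring
    · simp [h1.2, h2.2]
      norm_num

lemma eval_pd1_ff (k : ℕ) (hk : 1 ≤ k) : eval ![0, 1, 1] (pderiv 1 (ff k)) ≠ 0 := by
  obtain ⟨h1, h2⟩ := pd1_HH 0 (k + 1)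
  have h3 : eval ![0, 1, 1] (vv k) = 1 := by
    unfold vv
    simp [h2]
  have h4 : eval ![0, 1, 1] (pderiv 1 (vv k)) = ((k : ℂ) + 1) ^ 2 := by
    have hk0 : k ≠ 0 := by omega
    unfold vv
    rw [map_add, map_add, h1]
    simp [pderiv_X, Derivation.leibniz_pow, hk0]
  have h5 : eval ![0, 1, 1] (pderiv 1 (ff k)) = 2 * ((k : ℂ) + 1) ^ 2 := by
    unfold ff
    simp only [Derivation.leibniz, map_sub, Derivation.leibniz_pow, pderiv_X, smul_eq_mul,
      map_add, map_mul, map_pow, h3, h4, nsmul_eq_mul]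
    simp
  rw [h5]
  exact mul_ne_zero two_ne_zero (pow_ne_zero 2 (by exact_mod_cast (by omega : k + 1 ≠ 0)))

lemma eval_pd2_ff (k : ℕ) (hk : 1 ≤ k) : eval ![0, 1, 0] (pderiv 2 (ff k)) ≠ 0 := by
  have hk0 : k ≠ 0 := by omega
  have h3 : eval ![0, 1, 0] (vv k) = 2 ^ k := by
    rw [eval_vv]
    simp [hk0, hh_one_zero]
  have h5 : eval ![0, 1, 0] (pderiv 2 (ff k)) = ((2 : ℂ) ^ k) ^ 2 := by
    unfold ff
    simp [Derivation.leibniz, Derivation.leibniz_pow, pderiv_X, h3]
  rw [h5]
  exact pow_ne_zero 2 (pow_ne_zero k two_ne_zero)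

lemma pd0_ff (k : ℕ) : pderiv 0 (ff k) =
    C (2 * k : ℂ) * (X 2 * vv k * (X 1 - X 2) * X 0 ^ (k - 1)) := by
  have h1 : pderiv 0 (vv k) = C (k : ℂ) * (X 1 - X 2) * X 0 ^ (k - 1) := by
    unfold vv
    rw [map_add, pd_HH]
    simp [pderiv_X, Derivation.leibniz_pow]
    ring
  unfold ff
  have h2 : (C 2 : MvPolynomial (Fin 3) ℂ) = 2 := map_ofNat C 2
  simp only [Derivation.leibniz, map_sub, Derivation.leibniz_pow, h1, pderiv_X, smul_eq_mul]
  simp [h2]
  ring

lemma pd_dvd {p f : MvPolynomial (Fin 3) ℂ} (h : p * p ∣ f) (i : Fin 3) : p ∣ pderiv i f := by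
  obtain ⟨g, rfl⟩ := h
  refine ⟨pderiv i p * g + (p * pderiv i g + pderiv i p * g), ?_⟩
  simp only [Derivation.leibniz, smul_eq_mul]
  ring

lemma ff_squarefree (k : ℕ) (hk : 1 ≤ k) : Squarefree (ff k) := by
  have hf0 : ff k ≠ 0 := by
    intro h
    apply eval_pd2_ff k hk
    rw [h]
    simp
  rw [squarefree_iff_irreducible_sq_not_dvd_of_ne_zero hf0]
  intro p hp hpp
  have hpr : Prime p := hp.prime
  have hpf : p ∣ ff k := dvd_trans (dvd_mul_left p p) hpp
  -- a prime which divides a coordinate-like form is associated to it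
  have key : ∀ (l : MvPolynomial (Fin 3) ℂ), Prime l → p ∣ l → ∀ (i : Fin 3) (w : Fin 3 → ℂ),
      eval w l = 0 → eval w (pderiv i (ff k)) = 0 := by
    intro l hl hpl i w hw
    have h1 : Associated p l := hp.associated_of_dvd hl.irreducible hpl
    have h2 : l ∣ pderiv i (ff k) := h1.symm.dvd.trans (pd_dvd hpp i)
    obtain ⟨g, hg⟩ := h2
    rw [hg, map_mul, hw, zero_mul]
  have h2 : ¬ p ∣ X 2 := fun h => eval_pd2_ff k hk (key _ X_prime h 2 _ (by simp))
  have h0 : ¬ p ∣ X 0 := fun h => eval_pd2_ff k hk (key _ X_prime h 2 _ (by simp))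
  have h12 : ¬ p ∣ X 1 - X 2 := fun h => eval_pd1_ff k hk (key _ prime_sub h 1 _ (by simp))
  have hv : ¬ p ∣ vv k := by
    intro h
    have h3 : p ∣ X 2 * X 2 ^ (2 * (k + 1)) := by
      have h4 : X 2 * X 2 ^ (2 * (k + 1)) = X 2 * vv k * vv k - ff k := by
        unfold ff
        ring
      rw [h4]
      exact dvd_sub (Dvd.dvd.mul_left h _) hpf
    rcases hpr.dvd_or_dvd h3 with h5 | h5
    · exact h2 h5
    · exact h2 (hpr.dvd_of_dvd_pow h5)
  have hd := pd_dvd hpp 0
  rw [pd0_ff] at hd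
  rcases hpr.dvd_or_dvd hd with h3 | h3
  · apply hp.not_isUnit
    refine isUnit_of_dvd_unit h3 ?_
    refine (IsUnit.mk0 (2 * (k : ℂ)) ?_).map C
    exact mul_ne_zero two_ne_zero (by exact_mod_cast (by omega : k ≠ 0))
  · rcases hpr.dvd_or_dvd h3 with h4 | h4
    · rcases hpr.dvd_or_dvd h4 with h5 | h5
      · rcases hpr.dvd_or_dvd h5 with h6 | h6
        · exact h2 h6
        · exact hv h6
      · exact h12 h5
    · exact h0 (hpr.dvd_of_dvd_pow h4)

/-- The curve of degree `2 m + 1` is maximizing. -/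
theorem main (m : ℕ) (hm : 2 ≤ m) : IsMaximizing m (ff (m - 1)) := by
  obtain ⟨k, rfl⟩ : ∃ k, m = k + 1 := ⟨m - 1, by omega⟩
  have hk : 1 ≤ k := by omega
  rw [Nat.add_sub_cancel]
  have hpt : ∀ p : Plane, ∃ x, pt x = p := pt_bij.2
  refine ⟨ff_homogeneous k, ff_squarefree k hk, ?_, ?_, ?_⟩
  · intro p
    obtain ⟨x, rfl⟩ := hpt p
    exact (local_all k hk x).2
  · intro p
    obtain ⟨x, rfl⟩ := hpt p
    exact (local_all k hk x).1.1
  · rw [← sum_tn k hk]
    exact (finsum_eq_of_bijective pt pt_bij fun x => ((local_all k hk x).1.2).symm).symm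

end Pool.Agent.K4H44.MXC
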