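import Pool.Agent.K4H44.MXC.Tj

set_option autoImplicit false

/-!
# The types of the singular points
-/

namespace Pool.Agent.K4H44.MXC

open MvPolynomial

/-- Units have square roots. -/
lemma exists_sqrt (s : MvPowerSeries (Fin 2) ℂ) (hs : MvPowerSeries.constantCoeff s ≠ 0) :
    ∃ r, r ^ 2 = s := by
  set c := MvPowerSeries.constantCoeff s with hc
  obtain ⟨d, hd⟩ := IsAlgClosed.exists_pow_nat_eq c (n := 2) (by norm_num)
  set t : MvPowerSeries (Fin 2) ℂ := MvPowerSeries.C c⁻¹ * s - 1 with ht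
  have ht0 : MvPowerSeries.constantCoeff t = 0 := by
    rw [ht, map_sub, map_mul, MvPowerSeries.constantCoeff_C, ← hc, map_one,
      inv_mul_cancel₀ hs, sub_self]
  have hsub : PowerSeries.HasSubst t := PowerSeries.HasSubst.of_constantCoeff_zero ht0
  set B : PowerSeries ℂ := PowerSeries.binomialSeries ℂ (1 / 2 : ℚ) with hB
  have hB2 : B ^ 2 = 1 + PowerSeries.X := by
    rw [pow_two, hB, ← PowerSeries.binomialSeries_add]
    have : (1 / 2 + 1 / 2 : ℚ) = ((1 : ℕ) : ℚ) := by norm_num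
    rw [this, PowerSeries.binomialSeries_nat, pow_one]
  refine ⟨MvPowerSeries.C d * PowerSeries.subst t B, ?_⟩
  rw [mul_pow, ← PowerSeries.subst_pow hsub, hB2, ← map_pow, hd]
  have h1 : PowerSeries.subst t (1 + PowerSeries.X : PowerSeries ℂ) = 1 + t := by
    rw [← PowerSeries.coe_substAlgHom hsub, map_add, map_one, PowerSeries.coe_substAlgHom hsub,
      PowerSeries.subst_X hsub]
  rw [h1, ht]
  have h2 : (MvPowerSeries.C c : MvPowerSeries (Fin 2) ℂ) * MvPowerSeries.C c⁻¹ = 1 := by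
    rw [← map_mul, mul_inv_cancel₀ hs, map_one]
  linear_combination s * h2

lemma coe_sub' (p q : MvPolynomial (Fin 2) ℂ) :
    ((p - q : MvPolynomial (Fin 2) ℂ) : MvPowerSeries (Fin 2) ℂ) = (p : MvPowerSeries (Fin 2) ℂ) - q :=
  map_sub (coeToMvPowerSeries.ringHom (σ := Fin 2) (R := ℂ)) p q

lemma coeff_single_pd (f : MvPowerSeries (Fin 2) ℂ) (i : Fin 2) :
    MvPowerSeries.coeff (Finsupp.single i 1) f =
      MvPowerSeries.constantCoeff (MvPowerSeries.pderiv ℂ i f) := by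
  rw [← MvPowerSeries.coeff_zero_eq_constantCoeff_apply, MvPowerSeries.coeff_pderiv]
  simp

lemma pd_coe (g : MvPolynomial (Fin 2) ℂ) (i : Fin 2) :
    MvPowerSeries.constantCoeff (MvPowerSeries.pderiv ℂ i (g : MvPowerSeries (Fin 2) ℂ)) =
      constantCoeff (pderiv i g) := by
  rw [MvPowerSeries.pderiv_coe]
  exact coeff_coe _ _

lemma cc_coe (g : MvPolynomial (Fin 2) ℂ) :
    MvPowerSeries.constantCoeff (g : MvPowerSeries (Fin 2) ℂ) = constantCoeff g :=
  coeff_coe _ _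

lemma isUnit_coe {g : MvPolynomial (Fin 2) ℂ} (h : constantCoeff g ≠ 0) :
    IsUnit (g : MvPowerSeries (Fin 2) ℂ) := by
  rw [MvPowerSeries.isUnit_iff_constantCoeff, cc_coe]
  exact isUnit_iff_ne_zero.2 h

lemma pd_X (i j : Fin 2) : MvPowerSeries.pderiv ℂ i (MvPowerSeries.X j) = if i = j then 1 else 0 := by
  split_ifs with h
  · subst h
    exact MvPowerSeries.pderiv_X_self
  · exact MvPowerSeries.pderiv_X_of_ne (Ne.symm h)

lemma simple_D (m : ℕ) (v : MvPolynomial (Fin 2) ℂ) (hv0 : constantCoeff v = 0)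
    (hv1 : constantCoeff (pderiv 0 v) ≠ 0) (hm : 1 ≤ m) :
    IsSimple (X 1 * (v ^ 2 - X 1 ^ (2 * m))) := by
  refine ⟨MvPowerSeries.C Complex.I * (v : MvPowerSeries (Fin 2) ℂ), MvPowerSeries.X 1, -1,
    ⟨?_, ?_, ?_⟩, isUnit_one.neg, Or.inr (Or.inl ⟨2 * m + 2, by omega, ?_⟩)⟩
  · rw [map_mul, cc_coe, hv0, mul_zero]
  · exact MvPowerSeries.constantCoeff_X 1
  · rw [coeff_single_pd, coeff_single_pd, coeff_single_pd, coeff_single_pd, pd_X, pd_X]
    simp [pd_coe, hv1]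
  · have h1 : 2 * m + 2 - 1 = 2 * m + 1 := by omega
    have h2 : (MvPowerSeries.C Complex.I : MvPowerSeries (Fin 2) ℂ) ^ 2 = -1 := by
      rw [← map_pow, Complex.I_sq, map_neg, map_one]
    rw [h1, mul_pow, h2]
    simp only [coe_mul, coe_sub', coe_pow, coe_X]
    ring

lemma simple_node (p q : MvPolynomial (Fin 2) ℂ) (hp : p = 1 + X 1 * q)
    (hq0 : constantCoeff q = 0) (hq1 : constantCoeff (pderiv 0 q) ≠ 0) :
    IsSimple (p ^ 2 - 1) := by
  have hcc : constantCoeff (p + 1) ≠ 0 := by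
    rw [hp]
    simp
  have h2 : (MvPowerSeries.C (1 / 2) : MvPowerSeries (Fin 2) ℂ) * 2 = 1 := by
    have : (2 : MvPowerSeries (Fin 2) ℂ) = MvPowerSeries.C 2 :=
      (map_ofNat (MvPowerSeries.C (σ := Fin 2) (R := ℂ)) 2).symm
    rw [this, ← map_mul]
    norm_num
  have hI : (MvPowerSeries.C Complex.I : MvPowerSeries (Fin 2) ℂ) ^ 2 = -1 := by
    rw [← map_pow, Complex.I_sq, map_neg, map_one]
  refine ⟨MvPowerSeries.C (1 / 2) * (MvPowerSeries.X 1 + (q : MvPowerSeries (Fin 2) ℂ)),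
    MvPowerSeries.C Complex.I * (MvPowerSeries.C (1 / 2) * (MvPowerSeries.X 1 - (q : MvPowerSeries (Fin 2) ℂ))),
    ((p + 1 : MvPolynomial (Fin 2) ℂ) : MvPowerSeries (Fin 2) ℂ),
    ⟨?_, ?_, ?_⟩, isUnit_coe hcc, Or.inl ⟨1, le_refl 1, ?_⟩⟩
  · simp [cc_coe, hq0]
  · simp [cc_coe, hq0]
  · rw [coeff_single_pd, coeff_single_pd, coeff_single_pd, coeff_single_pd]
    simp only [Derivation.leibniz, map_add, map_sub, pd_X, MvPowerSeries.pderiv_C,
      smul_eq_mul, map_mul, MvPowerSeries.constantCoeff_C, pd_coe, if_true]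
    simp only [Fin.isValue, zero_ne_one, if_false, map_zero, map_one]
    intro h
    apply hq1
    have h3 : Complex.I * (1 / 2 : ℂ) * constantCoeff (pderiv 0 q) = 0 := by
      linear_combination h
    simpa using h3
  · have h3 : (p : MvPowerSeries (Fin 2) ℂ) = 1 + MvPowerSeries.X 1 * (q : MvPowerSeries (Fin 2) ℂ) := by
      rw [hp]
      simp
    simp only [coe_sub', coe_pow, coe_add, coe_one, h3]
    set c : MvPowerSeries (Fin 2) ℂ := MvPowerSeries.C (1 / 2)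
    set x : MvPowerSeries (Fin 2) ℂ := MvPowerSeries.X 1
    set i : MvPowerSeries (Fin 2) ℂ := MvPowerSeries.C Complex.I
    set y : MvPowerSeries (Fin 2) ℂ := (q : MvPowerSeries (Fin 2) ℂ)
    have h4 : (c * (x + y)) ^ 2 + (i * (c * (x - y))) ^ (1 + 1) = (c * 2) ^ 2 * (x * y) := by
      rw [mul_pow, mul_pow i, show 1 + 1 = 2 from rfl, hI]
      ring
    rw [h4, h2]
    ring

lemma simple_A (k : ℕ) (hk : 2 ≤ k) (b ε : ℂ) (hb : b ≠ 1) (hε : ε ^ 2 = 1)
    (p R : MvPolynomial (Fin 2) ℂ) (hR : constantCoeff R ≠ 0)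
    (hp : p = (C b + X 1 - 1) * X 0 ^ k + (C ε + X 1 ^ 2 * R)) :
    IsSimple (p ^ 2 - 1) := by
  have hk0 : k ≠ 0 := by omega
  have hε0 : ε ≠ 0 := by
    rintro rfl
    norm_num at hε
  have hcc : constantCoeff (p + C ε) ≠ 0 := by
    rw [hp]
    simp [hk0, hε0]
  have hB : constantCoeff (C b + X 1 - 1 : MvPolynomial (Fin 2) ℂ) ≠ 0 := by
    simpa using sub_ne_zero.2 hb
  obtain ⟨u, hu⟩ := isUnit_coe hB
  have hu1 : (u : MvPowerSeries (Fin 2) ℂ) * ↑u⁻¹ = 1 := Units.mul_inv u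
  have hs : MvPowerSeries.constantCoeff
      ((R : MvPowerSeries (Fin 2) ℂ) * ((u⁻¹ : (MvPowerSeries (Fin 2) ℂ)ˣ) : MvPowerSeries (Fin 2) ℂ)) ≠ 0 := by
    rw [map_mul, cc_coe]
    refine mul_ne_zero hR ?_
    exact ((u⁻¹).isUnit.map (MvPowerSeries.constantCoeff (σ := Fin 2) (R := ℂ))).ne_zero
  obtain ⟨t, ht⟩ := exists_sqrt _ hs
  have ht0 : MvPowerSeries.constantCoeff t ≠ 0 := by
    intro h
    apply hs
    rw [← ht, map_pow, h]
    norm_num
  refine ⟨MvPowerSeries.X 1 * t, MvPowerSeries.X 0,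
    ((p + C ε : MvPolynomial (Fin 2) ℂ) : MvPowerSeries (Fin 2) ℂ) * (u : MvPowerSeries (Fin 2) ℂ),
    ⟨?_, ?_, ?_⟩, (isUnit_coe hcc).mul u.isUnit, Or.inl ⟨k - 1, by omega, ?_⟩⟩
  · simp
  · simp
  · rw [coeff_single_pd, coeff_single_pd, coeff_single_pd, coeff_single_pd]
    simp only [Derivation.leibniz, pd_X, smul_eq_mul, map_mul, map_add, if_true]
    simp [ht0]
  · have h1 : k - 1 + 1 = k := by omega
    have h3 : (p : MvPowerSeries (Fin 2) ℂ) = (u : MvPowerSeries (Fin 2) ℂ) * MvPowerSeries.X 0 ^ k +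
        (MvPowerSeries.C ε + MvPowerSeries.X 1 ^ 2 * (R : MvPowerSeries (Fin 2) ℂ)) := by
      rw [hp, hu]
      simp
    have hε1 : (MvPowerSeries.C ε : MvPowerSeries (Fin 2) ℂ) ^ 2 = 1 := by
      rw [← map_pow, hε, map_one]
    rw [h1, mul_pow, ht]
    simp only [coe_sub', coe_pow, coe_add, coe_one, coe_C, h3]
    set x : MvPowerSeries (Fin 2) ℂ := MvPowerSeries.X 0 ^ k
    set y : MvPowerSeries (Fin 2) ℂ := MvPowerSeries.X 1
    set e : MvPowerSeries (Fin 2) ℂ := MvPowerSeries.C ε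
    set r : MvPowerSeries (Fin 2) ℂ := (R : MvPowerSeries (Fin 2) ℂ)
    linear_combination hε1 - ((u : MvPowerSeries (Fin 2) ℂ) * x + (e + y ^ 2 * r) + e) * y ^ 2 * r * hu1

/-- The points on the line `y = 1` are nodes. -/
lemma simple_pp_node (k : ℕ) (hk : 1 ≤ k) (a : ℂ) (ha : a ^ k = -(k + 1) ^ 2) :
    IsSimple (pp k a 1 ^ 2 - 1) := by
  obtain ⟨t, ht, ht0⟩ := expand_one k
  have hk1 : (k : ℂ) + 1 ≠ 0 := by exact_mod_cast (by omega : k + 1 ≠ 0)
  have ha0 : a ≠ 0 := by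
    rintro rfl
    rw [zero_pow (by omega)] at ha
    have : ((k : ℂ) + 1) ^ 2 = 0 := by linear_combination ha
    exact hk1 (pow_eq_zero_iff two_ne_zero |>.1 this)
  set R : MvPolynomial (Fin 2) ℂ := Polynomial.aeval (X 1) t with hR
  have hR0 : constantCoeff R = (k + 1) ^ 2 := by
    rw [hR, cc_aeval]
    simpa using ht0
  have e1 : Polynomial.aeval (C 1 + X 1 : MvPolynomial (Fin 2) ℂ) (TT k) = 1 + X 1 * R := by
    have := congrArg (Polynomial.aeval (X 1 : MvPolynomial (Fin 2) ℂ)) ht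
    rw [Polynomial.aeval_comp] at this
    simp only [map_add, Polynomial.aeval_X, map_mul, map_one] at this
    rw [add_comm (X 1)] at this
    rw [map_one]
    exact this
  refine simple_node _ ((C a + X 0) ^ k + R) ?_ ?_ ?_
  · unfold pp
    rw [e1, map_one]
    ring
  · rw [map_add, hR0]
    simp [ha]
  · have hk0 : (k : ℂ) ≠ 0 := by exact_mod_cast (by omega : k ≠ 0)
    rw [map_add, hR, pd_aeval]
    simp [pderiv_X, Derivation.leibniz_pow, hk0, ha0]

/-- The points on the line `x = 0` are of type `A_(k - 1)`. -/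
lemma simple_pp_A (k : ℕ) (hk : 2 ≤ k) (b : ℂ) (hb : (UU k).eval b = 0) :
    IsSimple (pp k 0 b ^ 2 - 1) := by
  obtain ⟨r, hr, hr0⟩ := expand_crit k hb
  have hb1 : b ≠ 1 := by
    rintro rfl
    rw [UU_one] at hb
    exact absurd hb (by exact_mod_cast (by omega : k + 1 ≠ 0))
  have hε : (TT k).eval b ^ 2 = 1 := by
    have := pell_eval k b
    rw [hb] at this
    linear_combination this
  refine simple_A k hk b ((TT k).eval b) hb1 hε _ (Polynomial.aeval (X 1) r) ?_ ?_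
  · rw [cc_aeval]
    simpa using hr0
  · have e1 : Polynomial.aeval (C b + X 1 : MvPolynomial (Fin 2) ℂ) (TT k) =
        C ((TT k).eval b) + X 1 ^ 2 * Polynomial.aeval (X 1) r := by
      have := congrArg (Polynomial.aeval (X 1 : MvPolynomial (Fin 2) ℂ)) hr
      rw [Polynomial.aeval_comp] at this
      simp only [map_add, Polynomial.aeval_X, Polynomial.aeval_C, map_mul, map_pow,
        MvPolynomial.algebraMap_eq] at this
      rw [add_comm (X 1)] at this
      exact this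
    unfold pp
    rw [e1, map_zero, zero_add]

end Pool.Agent.K4H44.MXC
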