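import Pool.Agent.K4H44.MXC.Loc
import Pool.Agent.K4H44.MXC.Cheb

set_option autoImplicit false

/-!
# Tjurina numbers of the local equations
-/

namespace Pool.Agent.K4H44.MXC

open MvPolynomial

lemma C_two : (C 2 : MvPolynomial (Fin 2) ℂ) = 2 := map_ofNat C 2

lemma cc_aeval (P : Polynomial ℂ) (q : MvPolynomial (Fin 2) ℂ) :
    constantCoeff (Polynomial.aeval q P) = P.eval (constantCoeff q) := by
  rw [Polynomial.aeval_def, Polynomial.hom_eval₂]
  have : (constantCoeff (σ := Fin 2) (R := ℂ)).comp (algebraMap ℂ (MvPolynomial (Fin 2) ℂ)) =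
      RingHom.id ℂ := by
    ext1 x
    simp [MvPolynomial.algebraMap_eq]
  rw [this, Polynomial.eval₂_id]

lemma pd_aeval (P : Polynomial ℂ) (q : MvPolynomial (Fin 2) ℂ) (i : Fin 2) :
    pderiv i (Polynomial.aeval q P) = Polynomial.aeval q (Polynomial.derivative P) * pderiv i q := by
  rw [Derivation.map_aeval, smul_eq_mul]

lemma tj_sq {p : MvPolynomial (Fin 2) ℂ} {ε : ℂ} (h : constantCoeff p = ε) (hε : ε ^ 2 = 1) :
    tjIdeal (p ^ 2 - 1) = Ideal.span {io (p - C ε), io (pderiv 0 p), io (pderiv 1 p)} := by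
  have hε0 : ε ≠ 0 := by
    rintro rfl
    norm_num at hε
  have hc : (C ε : MvPolynomial (Fin 2) ℂ) ^ 2 = 1 := by rw [← map_pow, hε, map_one]
  have h1 : io (p ^ 2 - 1) = io (p + C ε) * io (p - C ε) := by
    rw [← map_mul]
    congr 1
    linear_combination hc
  have h2 : ∀ i, io (pderiv i (p ^ 2 - 1)) = io (C 2 * p) * io (pderiv i p) := by
    intro i
    rw [← map_mul]
    congr 1
    simp [map_sub, Derivation.leibniz_pow, C_two]
    ring
  have u1 : IsUnit (io (p + C ε)) := isUnit_io (by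
    rw [map_add, h, constantCoeff_C, ← two_mul]
    exact mul_ne_zero two_ne_zero hε0)
  have u2 : IsUnit (io (C 2 * p)) := isUnit_io (by
    rw [map_mul, h, constantCoeff_C]
    exact mul_ne_zero two_ne_zero hε0)
  unfold tjIdeal
  apply le_antisymm
  · rw [Ideal.span_le]
    rintro x (rfl | rfl | rfl)
    · change io (p ^ 2 - 1) ∈ _
      rw [h1]
      exact Ideal.mul_mem_left _ _ (Ideal.subset_span (by simp))
    · change io (pderiv 0 (p ^ 2 - 1)) ∈ _
      rw [h2]
      exact Ideal.mul_mem_left _ _ (Ideal.subset_span (by simp))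
    · change io (pderiv 1 (p ^ 2 - 1)) ∈ _
      rw [h2]
      exact Ideal.mul_mem_left _ _ (Ideal.subset_span (by simp))
  · rw [Ideal.span_le]
    rintro x (rfl | rfl | rfl)
    · refine (Ideal.unit_mul_mem_iff_mem _ u1).1 ?_
      rw [← h1]
      exact Ideal.subset_span (by simp)
    · refine (Ideal.unit_mul_mem_iff_mem _ u2).1 ?_
      rw [← h2]
      exact Ideal.subset_span (by simp)
    · refine (Ideal.unit_mul_mem_iff_mem _ u2).1 ?_
      rw [← h2]
      exact Ideal.subset_span (by simp)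

lemma isSing_not_top {g : MvPolynomial (Fin 2) ℂ} (h : IsSing g) : tjIdeal g ≠ ⊤ := by
  intro h1
  have h0 : tjIdeal g ≤ IsLocalRing.maximalIdeal Loc := by
    unfold tjIdeal
    rw [Ideal.span_le]
    rintro x (rfl | rfl | rfl)
    · rw [SetLike.mem_coe, IsLocalization.AtPrime.to_map_mem_maximal_iff Loc origin]
      exact h.1
    · rw [SetLike.mem_coe, IsLocalization.AtPrime.to_map_mem_maximal_iff Loc origin]
      exact h.2 0
    · rw [SetLike.mem_coe, IsLocalization.AtPrime.to_map_mem_maximal_iff Loc origin]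
      exact h.2 1
  rw [h1, top_le_iff] at h0
  exact (IsLocalRing.maximalIdeal.isMaximal Loc).ne_top h0

/-- The dehomogenisation of the form `v`, at the point `(a, b)`. -/
noncomputable def pp (k : ℕ) (a b : ℂ) : MvPolynomial (Fin 2) ℂ :=
  (C b + X 1 - 1) * (C a + X 0) ^ k + Polynomial.aeval (C b + X 1) (TT k)

lemma cc_pp (k : ℕ) (a b : ℂ) :
    constantCoeff (pp k a b) = (b - 1) * a ^ k + (TT k).eval b := by
  unfold pp
  rw [map_add, cc_aeval]
  simp

lemma pd0_pp (k : ℕ) (a b : ℂ) :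
    pderiv 0 (pp k a b) = C (k : ℂ) * ((C b + X 1 - 1) * (C a + X 0) ^ (k - 1)) := by
  unfold pp
  rw [map_add, pd_aeval]
  simp [pderiv_X, Derivation.leibniz_pow]
  ring

lemma pd1_pp (k : ℕ) (a b : ℂ) :
    pderiv 1 (pp k a b) = (C a + X 0) ^ k +
      Polynomial.aeval (C b + X 1) (Polynomial.derivative (TT k)) := by
  unfold pp
  rw [map_add, pd_aeval]
  simp [pderiv_X, Derivation.leibniz_pow]

lemma cc_pd0 (k : ℕ) (a b : ℂ) :
    constantCoeff (pderiv 0 (pp k a b)) = k * ((b - 1) * a ^ (k - 1)) := by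
  rw [pd0_pp]
  simp

lemma cc_pd1 (k : ℕ) (a b : ℂ) :
    constantCoeff (pderiv 1 (pp k a b)) = a ^ k + (k + 1) * (UU k).eval b := by
  rw [pd1_pp, map_add, cc_aeval, ← deriv_TT_eval]
  simp

/-- No contribution at the other points. -/
lemma top_other (k : ℕ) (hk : 1 ≤ k) (a b : ℂ) (h1 : ¬ (a = 0 ∧ (UU k).eval b = 0))
    (h2 : ¬ (a ^ k = -(k + 1) ^ 2 ∧ b = 1)) : tjIdeal (pp k a b ^ 2 - 1) = ⊤ := by
  by_cases hε : constantCoeff (pp k a b) ^ 2 = 1
  swap
  · refine tjIdeal_top_of (h := pp k a b ^ 2 - 1) (Ideal.subset_span (by simp)) ?_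
    rw [map_sub, map_pow, map_one]
    exact sub_ne_zero.2 hε
  have hs := tj_sq rfl hε
  by_cases h3 : constantCoeff (pderiv 0 (pp k a b)) = 0
  swap
  · exact tjIdeal_top_of (h := pderiv 0 (pp k a b)) (by rw [hs]; exact Ideal.subset_span (by simp))
      h3
  by_cases h4 : constantCoeff (pderiv 1 (pp k a b)) = 0
  swap
  · exact tjIdeal_top_of (h := pderiv 1 (pp k a b)) (by rw [hs]; exact Ideal.subset_span (by simp))
      h4
  exfalso
  rw [cc_pd0] at h3
  rw [cc_pd1] at h4
  have hk0 : (k : ℂ) ≠ 0 := by exact_mod_cast (by omega : k ≠ 0)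
  have hk1 : (k : ℂ) + 1 ≠ 0 := by exact_mod_cast (by omega : k + 1 ≠ 0)
  by_cases hb : b = 1
  · subst hb
    rw [UU_one] at h4
    exact h2 ⟨by linear_combination h4, rfl⟩
  · have h5 : a ^ (k - 1) = 0 := by
      have := (mul_eq_zero.1 h3).resolve_left hk0
      exact (mul_eq_zero.1 this).resolve_left (sub_ne_zero.2 hb)
    have ha : a = 0 := by
      by_contra ha
      exact pow_ne_zero _ ha h5
    subst ha
    rw [zero_pow (by omega), zero_add] at h4
    exact h1 ⟨rfl, (mul_eq_zero.1 h4).resolve_left hk1⟩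

/-- The points on the line `x = 0`. -/
lemma tj_A (k : ℕ) (hk : 1 ≤ k) (b : ℂ) (hb : (UU k).eval b = 0) :
    HasTj (pp k 0 b ^ 2 - 1) (k - 1) := by
  obtain ⟨r, hr, hr0⟩ := expand_crit k hb
  have hb1 : b ≠ 1 := by
    rintro rfl
    rw [UU_one] at hb
    exact absurd hb (by exact_mod_cast (by omega : k + 1 ≠ 0))
  have hε : (TT k).eval b ^ 2 = 1 := by
    have := pell_eval k b
    rw [hb] at this
    linear_combination this
  have hcc : constantCoeff (pp k 0 b) = (TT k).eval b := by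
    rw [cc_pp, zero_pow (by omega)]
    ring
  set ε := (TT k).eval b with hεd
  set R : MvPolynomial (Fin 2) ℂ := Polynomial.aeval (X 1) r with hR
  have hR0 : constantCoeff R ≠ 0 := by
    rw [hR, cc_aeval]
    simpa using hr0
  have e1 : Polynomial.aeval (C b + X 1 : MvPolynomial (Fin 2) ℂ) (TT k) = C ε + X 1 ^ 2 * R := by
    have := congrArg (Polynomial.aeval (X 1 : MvPolynomial (Fin 2) ℂ)) hr
    rw [Polynomial.aeval_comp] at this
    simp only [map_add, Polynomial.aeval_X, Polynomial.aeval_C, map_mul, map_pow,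
      MvPolynomial.algebraMap_eq] at this
    rw [add_comm (X 1)] at this
    exact this
  have hp : pp k 0 b = (C b + X 1 - 1) * X 0 ^ k + (C ε + X 1 ^ 2 * R) := by
    unfold pp
    rw [e1, map_zero, zero_add]
  have hpd : pderiv 1 (pp k 0 b) = X 0 ^ k + X 1 * (C 2 * R + X 1 * pderiv 1 R) := by
    rw [hp]
    simp [pderiv_X, Derivation.leibniz_pow, C_two]
    ring
  have u1 : IsUnit (io (C (k : ℂ) * (C b + X 1 - 1))) := isUnit_io (by
    have hk0 : (k : ℂ) ≠ 0 := by exact_mod_cast (by omega : k ≠ 0)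
    simp [hk0, sub_ne_zero.2 hb1])
  have u2 : IsUnit (io (C 2 * R + X 1 * pderiv 1 R)) := isUnit_io (by
    simp [hR0])
  have hI : tjIdeal (pp k 0 b ^ 2 - 1) = Ideal.span {io (X 1), io (X 0) ^ (k - 1)} := by
    rw [tj_sq hcc hε]
    have e0 : io (pderiv 0 (pp k 0 b)) = io (C (k : ℂ) * (C b + X 1 - 1)) * io (X 0) ^ (k - 1) := by
      rw [pd0_pp, ← map_pow, ← map_mul]
      congr 1
      rw [map_zero, zero_add]
      ring
    have e2 : io (pderiv 1 (pp k 0 b)) = io (X 0) * io (X 0) ^ (k - 1) +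
        io (C 2 * R + X 1 * pderiv 1 R) * io (X 1) := by
      rw [hpd, ← map_pow, ← map_mul, ← map_mul, ← map_add, ← pow_succ', Nat.sub_add_cancel hk]
      congr 1
      ring
    have e3 : io (pp k 0 b - C ε) = (io (C b + X 1 - 1) * io (X 0)) * io (X 0) ^ (k - 1) +
        (io (X 1) * io R) * io (X 1) := by
      rw [hp, ← map_pow, ← map_mul, ← map_mul, ← map_mul, ← map_mul, ← map_add]
      congr 1
      rw [mul_assoc (C b + X 1 - 1) (X 0), ← pow_succ', Nat.sub_add_cancel hk]
      ring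
    apply le_antisymm
    · rw [Ideal.span_le]
      have m1 : io (X 1) ∈ Ideal.span {io (X 1), io (X 0) ^ (k - 1)} :=
        Ideal.subset_span (by simp)
      have m2 : io (X 0) ^ (k - 1) ∈ Ideal.span {io (X 1), io (X 0) ^ (k - 1)} :=
        Ideal.subset_span (by simp)
      rintro x (rfl | rfl | rfl)
      · rw [e3]
        exact Ideal.add_mem _ (Ideal.mul_mem_left _ _ m2) (Ideal.mul_mem_left _ _ m1)
      · rw [e0]
        exact Ideal.mul_mem_left _ _ m2
      · rw [e2]
        exact Ideal.add_mem _ (Ideal.mul_mem_left _ _ m2) (Ideal.mul_mem_left _ _ m1)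
    · have m2 : io (X 0) ^ (k - 1) ∈ Ideal.span {io (pp k 0 b - C ε), io (pderiv 0 (pp k 0 b)),
          io (pderiv 1 (pp k 0 b))} := by
        refine (Ideal.unit_mul_mem_iff_mem _ u1).1 ?_
        rw [← e0]
        exact Ideal.subset_span (by simp)
      rw [Ideal.span_le]
      rintro x (rfl | rfl)
      · refine (Ideal.unit_mul_mem_iff_mem _ u2).1 ?_
        have e4 : io (C 2 * R + X 1 * pderiv 1 R) * io (X 1) =
            io (pderiv 1 (pp k 0 b)) - io (X 0) * io (X 0) ^ (k - 1) := by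
          rw [e2]
          ring
        rw [e4]
        exact Ideal.sub_mem _ (Ideal.subset_span (by simp)) (Ideal.mul_mem_left _ _ m2)
      · exact m2
  apply hasTj_of_dl
  rw [hI, dl_pow _ _ (prime_io 0), Set.pair_comm, dl_origin, mul_one]
  intro h
  obtain ⟨c, hc⟩ := io_dvd h
  have := congrArg (fun q => constantCoeff (pderiv 1 q)) hc
  simp [pderiv_X] at this

/-- The points on the line `y = 1`. -/
lemma tj_node (k : ℕ) (hk : 1 ≤ k) (a : ℂ) (ha : a ^ k = -(k + 1) ^ 2) :
    HasTj (pp k a 1 ^ 2 - 1) 1 := by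
  obtain ⟨t, ht, ht0⟩ := expand_one k
  have hk1 : (k : ℂ) + 1 ≠ 0 := by exact_mod_cast (by omega : k + 1 ≠ 0)
  have ha0 : a ≠ 0 := by
    rintro rfl
    rw [zero_pow (by omega)] at ha
    have : ((k : ℂ) + 1) ^ 2 = 0 := by linear_combination ha
    exact hk1 (pow_eq_zero_iff two_ne_zero |>.1 this)
  set R : MvPolynomial (Fin 2) ℂ := Polynomial.aeval (X 1) t with hR
  have hR0 : constantCoeff R = (k + 1) ^ 2 := by
    rw [hR, cc_aeval]
    simpa using ht0
  have e1 : Polynomial.aeval (C 1 + X 1 : MvPolynomial (Fin 2) ℂ) (TT k) = 1 + X 1 * R := by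
    have := congrArg (Polynomial.aeval (X 1 : MvPolynomial (Fin 2) ℂ)) ht
    rw [Polynomial.aeval_comp] at this
    simp only [map_add, Polynomial.aeval_X, map_mul, map_one] at this
    rw [add_comm (X 1)] at this
    rw [map_one]
    exact this
  set q : MvPolynomial (Fin 2) ℂ := (C a + X 0) ^ k + R with hq
  have hp : pp k a 1 = 1 + X 1 * q := by
    unfold pp
    rw [e1, hq, map_one]
    ring
  have hcc : constantCoeff (pp k a 1) = 1 := by
    rw [hp]
    simp
  have hq0 : constantCoeff q = 0 := by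
    rw [hq, map_add, hR0]
    simp [ha]
  have hq1 : constantCoeff (pderiv 0 q) ≠ 0 := by
    have hk0 : (k : ℂ) ≠ 0 := by exact_mod_cast (by omega : k ≠ 0)
    rw [hq, map_add, hR, pd_aeval]
    simp [pderiv_X, Derivation.leibniz_pow, hk0, ha0]
  have hI : tjIdeal (pp k a 1 ^ 2 - 1) = Ideal.span {io q, io (X 1)} := by
    rw [tj_sq hcc (one_pow 2)]
    have e0 : io (pderiv 0 (pp k a 1)) = io (pderiv 0 q) * io (X 1) := by
      rw [hp, ← map_mul]
      congr 1
      simp [pderiv_X]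
      ring
    have e2 : io (pderiv 1 (pp k a 1)) = io q + io (pderiv 1 q) * io (X 1) := by
      rw [hp, ← map_mul, ← map_add]
      congr 1
      simp [pderiv_X]
      ring
    have e3 : io (pp k a 1 - C 1) = io q * io (X 1) := by
      rw [hp, ← map_mul]
      congr 1
      simp
      ring
    apply le_antisymm
    · rw [Ideal.span_le]
      have m1 : io (X 1) ∈ Ideal.span {io q, io (X 1)} :=
        Ideal.subset_span (by simp)
      have m2 : io q ∈ Ideal.span {io q, io (X 1)} :=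
        Ideal.subset_span (by simp)
      rintro x (rfl | rfl | rfl)
      · rw [e3]
        exact Ideal.mul_mem_left _ _ m1
      · rw [e0]
        exact Ideal.mul_mem_left _ _ m1
      · rw [e2]
        exact Ideal.add_mem _ m2 (Ideal.mul_mem_left _ _ m1)
    · have m1 : io (X 1) ∈ Ideal.span {io (pp k a 1 - C 1), io (pderiv 0 (pp k a 1)),
          io (pderiv 1 (pp k a 1))} := by
        refine (Ideal.unit_mul_mem_iff_mem _ (isUnit_io hq1)).1 ?_
        rw [← e0]
        exact Ideal.subset_span (by simp)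
      rw [Ideal.span_le]
      rintro x (rfl | rfl)
      · rw [← (sub_eq_iff_eq_add.2 e2), SetLike.mem_coe]
        exact Ideal.sub_mem _ (Ideal.subset_span (by simp)) (Ideal.mul_mem_left _ _ m1)
      · exact m1
  apply hasTj_of_dl
  rw [hI, span_coord hq0 hq1, dl_origin, Nat.cast_one]

/-- The points on the line at infinity. -/
lemma tj_D (m : ℕ) (v : MvPolynomial (Fin 2) ℂ) (hv0 : constantCoeff v = 0)
    (hv1 : constantCoeff (pderiv 0 v) ≠ 0) (hm : 1 ≤ m) :
    HasTj (X 1 * (v ^ 2 - X 1 ^ (2 * m))) (2 * m + 2) := by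
  have u1 : IsUnit (io (C 2 * pderiv 0 v)) := isUnit_io (by
    rw [map_mul, constantCoeff_C]
    exact mul_ne_zero two_ne_zero hv1)
  have u3 : IsUnit (io (C (2 * m + 1 : ℂ))) := isUnit_io (by
    rw [constantCoeff_C]
    exact_mod_cast (by omega : 2 * m + 1 ≠ 0))
  obtain ⟨n, rfl⟩ : ∃ n, m = n + 1 := ⟨m - 1, by omega⟩
  set c : Loc := io (C (2 * ((n + 1 : ℕ) : ℂ) + 1)) with hc
  have hI : tjIdeal (X 1 * (v ^ 2 - X 1 ^ (2 * (n + 1)))) =
      Ideal.span {io (X 1) * io v, io v ^ 2 - c * io (X 1) ^ (2 * n + 1 + 1)} := by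
    have e0 : io (pderiv 0 (X 1 * (v ^ 2 - X 1 ^ (2 * (n + 1))))) =
        io (C 2 * pderiv 0 v) * (io (X 1) * io v) := by
      rw [← map_mul, ← map_mul]
      congr 1
      simp [pderiv_X, Derivation.leibniz_pow, C_two]
      ring
    have e1 : io (pderiv 1 (X 1 * (v ^ 2 - X 1 ^ (2 * (n + 1))))) =
        (io v ^ 2 - c * io (X 1) ^ (2 * n + 1 + 1)) + io (C 2 * pderiv 1 v) * (io (X 1) * io v) := by
      rw [hc, ← map_pow, ← map_pow, ← map_mul, ← map_mul, ← map_mul, ← map_sub, ← map_add]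
      congr 1
      have : 2 * (n + 1) = 2 * n + 1 + 1 := by ring
      rw [this]
      simp [pderiv_X, Derivation.leibniz_pow, C_two]
      ring
    have e2 : io (X 1 * (v ^ 2 - X 1 ^ (2 * (n + 1)))) * c =
        io (X 1) * (io v ^ 2 - c * io (X 1) ^ (2 * n + 1 + 1)) +
          (c - 1) * io v * (io (X 1) * io v) := by
      simp only [io, map_mul, map_sub, map_pow]
      ring
    unfold tjIdeal
    apply le_antisymm
    · have m1 : io (X 1) * io v ∈ Ideal.span {io (X 1) * io v,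
          io v ^ 2 - c * io (X 1) ^ (2 * n + 1 + 1)} := Ideal.subset_span (by simp)
      have m2 : io v ^ 2 - c * io (X 1) ^ (2 * n + 1 + 1) ∈ Ideal.span {io (X 1) * io v,
          io v ^ 2 - c * io (X 1) ^ (2 * n + 1 + 1)} := Ideal.subset_span (by simp)
      rw [Ideal.span_le]
      rintro x (rfl | rfl | rfl)
      · refine (Ideal.mul_unit_mem_iff_mem _ u3).1 ?_
        change io (X 1 * (v ^ 2 - X 1 ^ (2 * (n + 1)))) * c ∈ _
        rw [e2]
        exact Ideal.add_mem _ (Ideal.mul_mem_left _ _ m2) (Ideal.mul_mem_left _ _ m1)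
      · change io (pderiv 0 (X 1 * (v ^ 2 - X 1 ^ (2 * (n + 1))))) ∈ _
        rw [e0]
        exact Ideal.mul_mem_left _ _ m1
      · change io (pderiv 1 (X 1 * (v ^ 2 - X 1 ^ (2 * (n + 1))))) ∈ _
        rw [e1]
        exact Ideal.add_mem _ m2 (Ideal.mul_mem_left _ _ m1)
    · have m1 : io (X 1) * io v ∈ Ideal.span {io (X 1 * (v ^ 2 - X 1 ^ (2 * (n + 1)))),
          io (pderiv 0 (X 1 * (v ^ 2 - X 1 ^ (2 * (n + 1))))),
          io (pderiv 1 (X 1 * (v ^ 2 - X 1 ^ (2 * (n + 1)))))} := by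
        refine (Ideal.unit_mul_mem_iff_mem _ u1).1 ?_
        rw [← e0]
        exact Ideal.subset_span (by simp)
      rw [Ideal.span_le]
      rintro x (rfl | rfl)
      · exact m1
      · rw [← (sub_eq_iff_eq_add.2 e1), SetLike.mem_coe]
        exact Ideal.sub_mem _ (Ideal.subset_span (by simp)) (Ideal.mul_mem_left _ _ m1)
  apply hasTj_of_dl
  rw [hI, dl_D _ _ _ (prime_io 1) (not_dvd hv1) u3, span_coord hv0 hv1, dl_origin, mul_one]
  norm_cast

/-- The other points on the line at infinity. -/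
lemma top_inf (m : ℕ) (v : MvPolynomial (Fin 2) ℂ) (hv0 : constantCoeff v ≠ 0) (hm : 1 ≤ m) :
    tjIdeal (X 1 * (v ^ 2 - X 1 ^ (2 * m))) = ⊤ := by
  refine tjIdeal_top_of (h := pderiv 1 (X 1 * (v ^ 2 - X 1 ^ (2 * m))))
    (Ideal.subset_span (by simp)) ?_
  have : 2 * m ≠ 0 := by omega
  simp [pderiv_X, Derivation.leibniz_pow, hv0, this]

end Pool.Agent.K4H44.MXC
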